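import Pool.Agent.Helper3.EQ.BetaN

/-! Averages over residues for general moduli. -/

namespace Pool.Agent.Helper3.TD

open Pool.Agent.Helper3.ND

theorem AvQ_mono {q : ℕ} {f g : ℤ → ℝ} (h : ∀ x, f x ≤ g x) : AvQ q f ≤ AvQ q g := by
  unfold AvQ
  gcongr
  exact h _

theorem AvQ_nonneg {q : ℕ} {f : ℤ → ℝ} (h : ∀ x, 0 ≤ f x) : 0 ≤ AvQ q f := by
  unfold AvQ
  apply div_nonneg (Finset.sum_nonneg (fun x _ => h _)) (by positivity)

theorem AvQ_add (q : ℕ) (f g : ℤ → ℝ) : AvQ q (fun x => f x + g x) = AvQ q f + AvQ q g := by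
  unfold AvQ
  rw [Finset.sum_add_distrib, add_div]

theorem AvQ_mul {m q : ℕ} (hm : 0 < m) {f : ℤ → ℝ} (h : ∀ x : ℤ, f (x + q) = f x) : AvQ (m * q) f = AvQ q f := by
  have key : ∀ j : ℕ, ∑ x ∈ Finset.range (j * q), f (x : ℤ) = j * ∑ x ∈ Finset.range q, f (x : ℤ) := by
    intro j
    induction j with
    | zero => simp
    | succ j ih =>
      rw [Nat.succ_mul, Finset.sum_range_add, ih]
      have h1 : ∀ x ∈ Finset.range q, f (((j * q + x : ℕ)) : ℤ) = f (x : ℤ) := by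
        intro x _
        rw [← per_mul h j (x : ℤ)]
        congr 1
        push_cast
        ring
      rw [Finset.sum_congr rfl h1]
      push_cast
      ring
  unfold AvQ
  rw [key m]
  have hm' : (m : ℝ) ≠ 0 := by exact_mod_cast hm.ne'
  push_cast
  rw [mul_div_mul_left _ _ hm']

theorem per_dvd {q Q' : ℕ} (hd : q ∣ Q') {f : ℤ → ℝ} (h : ∀ x : ℤ, f (x + q) = f x) (x : ℤ) : f (x + Q') = f x := by
  obtain ⟨j, rfl⟩ := hd
  have := per_mul h j x
  push_cast
  exact this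

theorem AvQ_dvd {q Q' : ℕ} (hd : q ∣ Q') (hQ : 0 < Q') {f : ℤ → ℝ} (h : ∀ x : ℤ, f (x + q) = f x) : AvQ Q' f = AvQ q f := by
  obtain ⟨j, rfl⟩ := hd
  have hj : 0 < j := by
    rcases Nat.eq_zero_or_pos j with h0 | h0
    · rw [h0, mul_zero] at hQ; exact absurd hQ (lt_irrefl _)
    · exact h0
  rw [mul_comm]
  exact AvQ_mul hj h

theorem one_residueQ {q : ℕ} (hq : 0 < q) (a : ℤ) : ∑ x ∈ Finset.range q, (if (q : ℤ) ∣ (x : ℤ) - a then (1 : ℝ) else 0) = 1 := by
  have hp : (0 : ℤ) < q := by exact_mod_cast hq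
  obtain ⟨b, hb⟩ : ∃ b : ℕ, (b : ℤ) = a % q := ⟨(a % q).toNat, Int.toNat_of_nonneg (Int.emod_nonneg _ hp.ne')⟩
  have hblt : b < q := by
    have := Int.emod_lt_of_pos a hp
    rw [← hb] at this
    exact_mod_cast this
  rw [Finset.sum_eq_single_of_mem b (Finset.mem_range.mpr hblt)]
  · rw [if_pos]
    rw [hb, dvd_sub_comm]
    exact Int.dvd_self_sub_emod
  · intro x hx hne
    rw [if_neg]
    intro hd
    rw [Finset.mem_range] at hx
    apply hne
    have h1 : (q : ℤ) ∣ (x : ℤ) - b := by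
      rw [hb]
      have h2 : (q : ℤ) ∣ a - a % q := Int.dvd_self_sub_emod
      have := dvd_add hd h2
      rwa [show (x : ℤ) - a + (a - a % q) = (x : ℤ) - a % q by ring] at this
    have h3 : |(x : ℤ) - b| < q := by
      have a1 : (x : ℤ) < q := by exact_mod_cast hx
      have a2 : (b : ℤ) < q := by exact_mod_cast hblt
      rw [abs_lt]
      constructor <;> linarith [Int.natCast_nonneg x, Int.natCast_nonneg b]
    have := Int.eq_zero_of_abs_lt_dvd h1 h3
    omega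

theorem one_residueT {q : ℕ} (hq : 0 < q) (h2 : Nat.Coprime 2 q) (t : ℕ) (a : ℤ) :
    ∑ x ∈ Finset.range q, (if (q : ℤ) ∣ 2 ^ t * (x : ℤ) - a then (1 : ℝ) else 0) = 1 := by
  have hc : IsCoprime ((2 : ℤ) ^ t) (q : ℤ) := by
    apply IsCoprime.pow_left
    exact_mod_cast Nat.isCoprime_iff_coprime.mpr h2
  obtain ⟨u, v, huv⟩ := hc
  refine Eq.trans (Finset.sum_congr rfl ?_) (one_residueQ hq (u * a))
  intro x _
  have h1 : (q : ℤ) ∣ 2 ^ t * (x : ℤ) - a ↔ (q : ℤ) ∣ (x : ℤ) - u * a := by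
    constructor
    · rintro ⟨w, hw⟩
      refine ⟨u * w + x * v, ?_⟩
      linear_combination u * hw - (x : ℤ) * huv
    · rintro ⟨w, hw⟩
      refine ⟨2 ^ t * w - a * v, ?_⟩
      linear_combination 2 ^ t * hw + a * huv
  exact if_congr h1 rfl rfl

theorem AvQ_Gq {q : ℕ} (hq : 0 < q) (h2 : Nat.Coprime 2 q) (t k : ℕ) (c : ℤ) (P : ℕ → Prop) : AvQ q (Gq q t k c P) = mass t k P := by
  classical
  have hq' : (0 : ℝ) < q := by exact_mod_cast hq
  unfold AvQ Gq mass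
  rw [Finset.sum_comm, div_eq_div_iff (by positivity) (by positivity)]
  have h1 : ∀ r ∈ Finset.range (2 ^ t), ∑ x ∈ Finset.range q, (if od t (r : ℤ) = k ∧ P r ∧ (q : ℤ) ∣ 2 ^ t * (x : ℤ) - cc t (r : ℤ) - 3 ^ k * c then (q : ℝ) / 2 ^ t else 0) =
      if od t (r : ℤ) = k ∧ P r then (q : ℝ) / 2 ^ t else 0 := by
    intro r _
    by_cases h : od t (r : ℤ) = k ∧ P r
    · rw [if_pos h]
      have h3 : ∀ x ∈ Finset.range q, (if od t (r : ℤ) = k ∧ P r ∧ (q : ℤ) ∣ 2 ^ t * (x : ℤ) - cc t (r : ℤ) - 3 ^ k * c then (q : ℝ) / 2 ^ t else 0) =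
          (q : ℝ) / 2 ^ t * (if (q : ℤ) ∣ 2 ^ t * (x : ℤ) - (cc t (r : ℤ) + 3 ^ k * c) then (1 : ℝ) else 0) := by
        intro x _
        rw [sub_sub]
        by_cases h4 : (q : ℤ) ∣ 2 ^ t * (x : ℤ) - (cc t (r : ℤ) + 3 ^ k * c)
        · rw [if_pos ⟨h.1, h.2, h4⟩, if_pos h4, mul_one]
        · rw [if_neg (fun h5 => h4 h5.2.2), if_neg h4, mul_zero]
      rw [Finset.sum_congr rfl h3, ← Finset.mul_sum, one_residueT hq h2, mul_one]
    · rw [if_neg h]
      apply Finset.sum_eq_zero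
      intro x _
      rw [if_neg (fun h4 => h ⟨h4.1, h4.2.1⟩)]
  rw [Finset.sum_congr rfl h1, ← Finset.sum_filter, Finset.sum_const, nsmul_eq_mul]
  field_simp

theorem Gq_split (q t k : ℕ) (c : ℤ) (P : ℕ → Prop) (x : ℤ) :
    Gq q t k c (fun _ => True) x = Gq q t k c P x + Gq q t k c (fun r => ¬ P r) x := by
  classical
  unfold Gq
  rw [← Finset.sum_add_distrib]
  apply Finset.sum_congr rfl
  intro r _
  by_cases h : P r <;> simp [h]

/-- the difference of full densities is controlled by good and bad parts -/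
theorem AvQ_diff {m q : ℕ} (hm : 0 < m) (hq : 0 < q) (h2 : Nat.Coprime 2 (m * q)) (t k : ℕ) (c : ℤ) (P : ℕ → Prop) :
    AvQ (m * q) (fun M => |Gq (m * q) t k c (fun _ => True) M - Gq q t k c (fun _ => True) M|) ≤
      AvQ (m * q) (fun M => |Gq (m * q) t k c P M - Gq q t k c P M|) + 2 * mass t k (fun r => ¬ P r) := by
  have h1 : ∀ M, |Gq (m * q) t k c (fun _ => True) M - Gq q t k c (fun _ => True) M| ≤
      |Gq (m * q) t k c P M - Gq q t k c P M| + (Gq (m * q) t k c (fun r => ¬ P r) M + Gq q t k c (fun r => ¬ P r) M) := by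
    intro M
    rw [Gq_split (m * q) t k c P, Gq_split q t k c P]
    have a1 := Gq_nonneg (m * q) t k c (fun r => ¬ P r) M
    have a2 := Gq_nonneg q t k c (fun r => ¬ P r) M
    have a3 : |Gq (m * q) t k c (fun r => ¬ P r) M - Gq q t k c (fun r => ¬ P r) M| ≤
        Gq (m * q) t k c (fun r => ¬ P r) M + Gq q t k c (fun r => ¬ P r) M := by
      rw [abs_le]; constructor <;> linarith
    calc |Gq (m * q) t k c P M + Gq (m * q) t k c (fun r => ¬ P r) M - (Gq q t k c P M + Gq q t k c (fun r => ¬ P r) M)|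
        = |(Gq (m * q) t k c P M - Gq q t k c P M) + (Gq (m * q) t k c (fun r => ¬ P r) M - Gq q t k c (fun r => ¬ P r) M)| := by
          congr 1; ring
      _ ≤ _ := le_trans (abs_add_le _ _) (by linarith)
  refine le_trans (AvQ_mono h1) ?_
  rw [AvQ_add, AvQ_add, AvQ_Gq (Nat.mul_pos hm hq) h2, AvQ_mul hm (Gq_per q t k c _),
    AvQ_Gq hq (Nat.Coprime.coprime_mul_left_right h2)]
  linarith

/-- telescoping -/
theorem AvQ_tele {m : ℕ} (hm : 0 < m) (t k : ℕ) (c : ℤ) (n K : ℕ) (hn : n ≤ K) :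
    AvQ (m * 3 ^ K) (fun M => |Gq (m * 3 ^ K) t k c (fun _ => True) M - Gq (m * 3 ^ n) t k c (fun _ => True) M|) ≤
      ∑ i ∈ Finset.Ico n K, AvQ (m * 3 ^ (i + 1)) (fun M => |Gq (m * 3 ^ (i + 1)) t k c (fun _ => True) M - Gq (m * 3 ^ i) t k c (fun _ => True) M|) := by
  induction K, hn using Nat.le_induction with
  | base => simp [AvQ]
  | succ N hN ih =>
    rw [Finset.sum_Ico_succ_top hN]
    have h1 : ∀ M, |Gq (m * 3 ^ (N + 1)) t k c (fun _ => True) M - Gq (m * 3 ^ n) t k c (fun _ => True) M| ≤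
        |Gq (m * 3 ^ N) t k c (fun _ => True) M - Gq (m * 3 ^ n) t k c (fun _ => True) M| +
          |Gq (m * 3 ^ (N + 1)) t k c (fun _ => True) M - Gq (m * 3 ^ N) t k c (fun _ => True) M| := by
      intro M
      have := abs_add_le (Gq (m * 3 ^ N) t k c (fun _ => True) M - Gq (m * 3 ^ n) t k c (fun _ => True) M)
        (Gq (m * 3 ^ (N + 1)) t k c (fun _ => True) M - Gq (m * 3 ^ N) t k c (fun _ => True) M)
      rw [show Gq (m * 3 ^ N) t k c (fun _ => True) M - Gq (m * 3 ^ n) t k c (fun _ => True) M +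
        (Gq (m * 3 ^ (N + 1)) t k c (fun _ => True) M - Gq (m * 3 ^ N) t k c (fun _ => True) M) =
        Gq (m * 3 ^ (N + 1)) t k c (fun _ => True) M - Gq (m * 3 ^ n) t k c (fun _ => True) M by ring] at this
      exact this
    refine le_trans (AvQ_mono h1) ?_
    rw [AvQ_add]
    have hper : ∀ x : ℤ, (fun M => |Gq (m * 3 ^ N) t k c (fun _ => True) M - Gq (m * 3 ^ n) t k c (fun _ => True) M|) (x + ((m * 3 ^ N : ℕ) : ℤ)) =
        (fun M => |Gq (m * 3 ^ N) t k c (fun _ => True) M - Gq (m * 3 ^ n) t k c (fun _ => True) M|) x := by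
      intro x
      simp only
      rw [Gq_per (m * 3 ^ N) t k c, per_dvd (Nat.mul_dvd_mul_left m (pow_dvd_pow 3 hN)) (Gq_per (m * 3 ^ n) t k c (fun _ => True)) x]
    rw [AvQ_dvd (Nat.mul_dvd_mul_left m (pow_dvd_pow 3 (Nat.le_succ N))) (Nat.mul_pos hm (by positivity)) hper]
    linarith

end Pool.Agent.Helper3.TD
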