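import Pool.Agent.Helper3.EQ.CcN
import Pool.Agent.Helper3.TD.PerSum
import Pool.Agent.Helper3.TD.Avg

/-! The mean absolute difference of densities for general moduli. -/

namespace Pool.Agent.Helper3.TD

open Pool.Agent.Helper3.ND

open Classical in
theorem mult_sum (m N' : ℕ) [NeZero m] [NeZero N'] (a : ZMod (m * N')) :
    ∑ ξ : ZMod (m * N'), (if m ∣ ξ.val then (ZMod.stdAddChar (ξ * a) : ℂ) else 0) =
      if (m : ZMod (m * N')) * a = 0 then (N' : ℂ) else 0 := by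
  have hm : 0 < m := Nat.pos_of_ne_zero (NeZero.ne m)
  have hN' : 0 < N' := Nat.pos_of_ne_zero (NeZero.ne N')
  rw [sum_zmod]
  have h2 : ∑ i ∈ Finset.range (m * N'),
      (if m ∣ ((i : ℕ) : ZMod (m * N')).val then (ZMod.stdAddChar (((i : ℕ) : ZMod (m * N')) * a) : ℂ) else 0) =
      ∑ i ∈ Finset.range N', (ZMod.stdAddChar ((m : ZMod (m * N')) * a) : ℂ) ^ i := by
    rw [← Finset.sum_filter]
    symm
    apply Finset.sum_nbij' (fun i => m * i) (fun i => i / m)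
    · intro i hi
      rw [Finset.mem_range] at hi
      rw [Finset.mem_filter, Finset.mem_range]
      have h3 : m * i < m * N' := Nat.mul_lt_mul_of_pos_left hi hm
      refine ⟨h3, ?_⟩
      rw [ZMod.val_natCast, Nat.mod_eq_of_lt h3]
      exact dvd_mul_right m i
    · intro i hi
      rw [Finset.mem_filter, Finset.mem_range] at hi
      rw [Finset.mem_range]
      exact Nat.div_lt_of_lt_mul hi.1
    · intro i _
      exact Nat.mul_div_cancel_left i hm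
    · intro i hi
      rw [Finset.mem_filter, Finset.mem_range] at hi
      have h3 := hi.2
      rw [ZMod.val_natCast, Nat.mod_eq_of_lt hi.1] at h3
      exact Nat.mul_div_cancel' h3
    · intro i _
      rw [← AddChar.map_nsmul_eq_pow]
      congr 1
      push_cast
      rw [nsmul_eq_mul]
      ring
  rw [h2]
  split_ifs with h3
  · rw [h3]
    simp
  · have hne : (ZMod.stdAddChar ((m : ZMod (m * N')) * a) : ℂ) ≠ 1 := by
      intro h4
      apply h3
      apply ZMod.injective_stdAddChar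
      rw [h4, AddChar.map_zero_eq_one]
    have h5 : (ZMod.stdAddChar ((m : ZMod (m * N')) * a) : ℂ) ^ N' = 1 := by
      rw [← AddChar.map_nsmul_eq_pow]
      have : N' • ((m : ZMod (m * N')) * a) = 0 := by
        rw [nsmul_eq_mul]
        have h6 : ((m * N' : ℕ) : ZMod (m * N')) = 0 := ZMod.natCast_self _
        calc (N' : ZMod (m * N')) * ((m : ZMod (m * N')) * a) = ((m * N' : ℕ) : ZMod (m * N')) * a := by push_cast; ring
          _ = 0 := by rw [h6, zero_mul]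
      rw [this, AddChar.map_zero_eq_one]
    have h6 := mul_geom_sum (ZMod.stdAddChar ((m : ZMod (m * N')) * a) : ℂ) N'
    rw [h5, sub_self] at h6
    rcases mul_eq_zero.mp h6 with h7 | h7
    · exact absurd (sub_eq_zero.mp h7) hne
    · exact h7

open Classical in
theorem compl_sum (m N' : ℕ) [NeZero m] [NeZero N'] (a : ZMod (m * N')) :
    ∑ ξ : ZMod (m * N'), (if ¬ m ∣ ξ.val then (ZMod.stdAddChar (ξ * a) : ℂ) else 0) =
      (if a = 0 then ((m * N' : ℕ) : ℂ) else 0) - (if (m : ZMod (m * N')) * a = 0 then (N' : ℂ) else 0) := by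
  rw [← mult_sum, eq_sub_iff_add_eq, ← Finset.sum_add_distrib, ← char_sum a]
  apply Finset.sum_congr rfl
  intro ξ _
  by_cases h : m ∣ ξ.val
  · rw [if_neg (not_not.mpr h), if_pos h, zero_add]
  · rw [if_pos h, if_neg h, add_zero]

open Classical in
/-- density modulo `q` of the end points `(3 ^ k c + cc) / 2 ^ t` -/
noncomputable def Gq (q t k : ℕ) (c : ℤ) (P : ℕ → Prop) (x : ℤ) : ℝ :=
  ∑ r ∈ Finset.range (2 ^ t), if od t (r : ℤ) = k ∧ P r ∧ (q : ℤ) ∣ 2 ^ t * x - cc t (r : ℤ) - 3 ^ k * c then (q : ℝ) / 2 ^ t else 0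

theorem Gq_per (q t k : ℕ) (c : ℤ) (P : ℕ → Prop) (x : ℤ) : Gq q t k c P (x + q) = Gq q t k c P x := by
  classical
  unfold Gq
  apply Finset.sum_congr rfl
  intro r _
  have h1 : (q : ℤ) ∣ 2 ^ t * (x + q) - cc t (r : ℤ) - 3 ^ k * c ↔ (q : ℤ) ∣ 2 ^ t * x - cc t (r : ℤ) - 3 ^ k * c := by
    rw [show 2 ^ t * (x + (q : ℤ)) - cc t (r : ℤ) - 3 ^ k * c = (2 ^ t * x - cc t (r : ℤ) - 3 ^ k * c) + q * 2 ^ t by ring]
    exact dvd_add_left (Dvd.intro _ rfl)
  exact if_congr (and_congr_right (fun _ => and_congr_right (fun _ => h1))) rfl rfl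

theorem Gq_nonneg (q t k : ℕ) (c : ℤ) (P : ℕ → Prop) (x : ℤ) : 0 ≤ Gq q t k c P x := by
  classical
  unfold Gq
  apply Finset.sum_nonneg
  intro r _
  split_ifs <;> positivity

open Classical in
/-- difference as a function on residues -/
noncomputable def fN (m N' t k : ℕ) (c : ℤ) (P : ℕ → Prop) (x : ZMod (m * N')) : ℝ :=
  ∑ r ∈ Finset.range (2 ^ t), if od t (r : ℤ) = k ∧ P r then
    ((if hn (m * N') ^ t * (((cc t (r : ℤ) + 3 ^ k * c : ℤ)) : ZMod (m * N')) - x = 0 then ((m * N' : ℕ) : ℝ) else 0) -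
      (if (m : ZMod (m * N')) * (hn (m * N') ^ t * (((cc t (r : ℤ) + 3 ^ k * c : ℤ)) : ZMod (m * N')) - x) = 0 then (N' : ℝ) else 0)) / 2 ^ t else 0

theorem fN_eq (m N' t k : ℕ) [NeZero m] [NeZero N'] [Fact (Nat.Coprime 2 (m * N'))] (c : ℤ) (P : ℕ → Prop) (x : ℤ) :
    fN m N' t k c P (x : ZMod (m * N')) = Gq (m * N') t k c P x - Gq N' t k c P x := by
  classical
  unfold fN Gq
  rw [← Finset.sum_sub_distrib]
  apply Finset.sum_congr rfl
  intro r _
  have hu : IsUnit ((2 : ZMod (m * N')) ^ t) := IsUnit.of_mul_eq_one _ (hn_pow (m * N') t)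
  have h0 : (2 : ZMod (m * N')) ^ t * (hn (m * N') ^ t * (((cc t (r : ℤ) + 3 ^ k * c : ℤ)) : ZMod (m * N')) - (x : ZMod (m * N'))) =
      ((-(2 ^ t * x - cc t (r : ℤ) - 3 ^ k * c) : ℤ) : ZMod (m * N')) := by
    have h2 := hn_pow (m * N') t
    push_cast
    calc (2 : ZMod (m * N')) ^ t * (hn (m * N') ^ t * ((cc t (r : ℤ) : ZMod (m * N')) + 3 ^ k * (c : ZMod (m * N'))) - (x : ZMod (m * N')))
        = (2 ^ t * hn (m * N') ^ t) * ((cc t (r : ℤ) : ZMod (m * N')) + 3 ^ k * (c : ZMod (m * N'))) - 2 ^ t * (x : ZMod (m * N')) := by ring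
      _ = _ := by rw [h2]; ring
  have h1 : hn (m * N') ^ t * (((cc t (r : ℤ) + 3 ^ k * c : ℤ)) : ZMod (m * N')) - (x : ZMod (m * N')) = 0 ↔
      ((m * N' : ℕ) : ℤ) ∣ 2 ^ t * x - cc t (r : ℤ) - 3 ^ k * c := by
    rw [← hu.mul_right_eq_zero, h0, ZMod.intCast_zmod_eq_zero_iff_dvd, dvd_neg]
  have h2 : (m : ZMod (m * N')) * (hn (m * N') ^ t * (((cc t (r : ℤ) + 3 ^ k * c : ℤ)) : ZMod (m * N')) - (x : ZMod (m * N'))) = 0 ↔
      (N' : ℤ) ∣ 2 ^ t * x - cc t (r : ℤ) - 3 ^ k * c := by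
    have e : (2 : ZMod (m * N')) ^ t * ((m : ZMod (m * N')) * (hn (m * N') ^ t * (((cc t (r : ℤ) + 3 ^ k * c : ℤ)) : ZMod (m * N')) - (x : ZMod (m * N')))) =
        (((m : ℤ) * -(2 ^ t * x - cc t (r : ℤ) - 3 ^ k * c) : ℤ) : ZMod (m * N')) := by
      rw [Int.cast_mul, ← h0]
      push_cast
      ring
    rw [← hu.mul_right_eq_zero, e, ZMod.intCast_zmod_eq_zero_iff_dvd]
    push_cast
    rw [mul_dvd_mul_iff_left (by exact_mod_cast NeZero.ne m), dvd_neg]
  rw [if_congr h1 rfl rfl, if_congr h2 rfl rfl]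
  by_cases h3 : od t (r : ℤ) = k <;> by_cases h4 : P r <;> simp [h3, h4, sub_div, ite_div]

open Classical in
theorem fN_fourier (m N' t k : ℕ) [NeZero m] [NeZero N'] [Fact (Nat.Coprime 2 (m * N'))] (c : ℤ) (P : ℕ → Prop) (x : ZMod (m * N')) :
    ((fN m N' t k c P x : ℝ) : ℂ) = ∑ ξ : ZMod (m * N'),
      (if ¬ m ∣ ξ.val then (ZMod.stdAddChar (ξ * hn (m * N') ^ t * ((3 ^ k * c : ℤ) : ZMod (m * N'))) : ℂ) *
        CwN (m * N') t k P ξ / 2 ^ t else 0) * (ZMod.stdAddChar (ξ * (-x)) : ℂ) := by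
  have h1 : ∀ ξ : ZMod (m * N'), (if ¬ m ∣ ξ.val then (ZMod.stdAddChar (ξ * hn (m * N') ^ t * ((3 ^ k * c : ℤ) : ZMod (m * N'))) : ℂ) *
        CwN (m * N') t k P ξ / 2 ^ t else 0) * (ZMod.stdAddChar (ξ * (-x)) : ℂ) =
      ∑ r ∈ Finset.range (2 ^ t), if od t (r : ℤ) = k ∧ P r then
        (if ¬ m ∣ ξ.val then (ZMod.stdAddChar (ξ * (hn (m * N') ^ t * (((cc t (r : ℤ) + 3 ^ k * c : ℤ)) : ZMod (m * N')) - x)) : ℂ) else 0) / 2 ^ t else 0 := by
    intro ξ
    by_cases hξ : m ∣ ξ.val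
    · simp only [hξ, not_true_eq_false, if_false, zero_mul]
      symm
      apply Finset.sum_eq_zero
      intro r _
      split_ifs <;> simp
    · simp only [hξ, not_false_eq_true, if_true]
      unfold CwN
      rw [Finset.mul_sum, Finset.sum_div, Finset.sum_mul]
      apply Finset.sum_congr rfl
      intro r _
      have : (ZMod.stdAddChar (ξ * (hn (m * N') ^ t * (((cc t (r : ℤ) + 3 ^ k * c : ℤ)) : ZMod (m * N')) - x)) : ℂ) =
          (ZMod.stdAddChar (ξ * hn (m * N') ^ t * ((3 ^ k * c : ℤ) : ZMod (m * N'))) : ℂ) *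
          (ZMod.stdAddChar (ξ * hn (m * N') ^ t * ((cc t (r : ℤ) : ℤ) : ZMod (m * N'))) : ℂ) * (ZMod.stdAddChar (ξ * (-x)) : ℂ) := by
        rw [← AddChar.map_add_eq_mul, ← AddChar.map_add_eq_mul]; congr 1; push_cast; ring
      rw [this]
      by_cases h3 : od t (r : ℤ) = k <;> by_cases h4 : P r <;> simp [h3, h4]
      ring
  rw [Finset.sum_congr rfl (fun ξ _ => h1 ξ), Finset.sum_comm]
  unfold fN
  push_cast
  apply Finset.sum_congr rfl
  intro r _
  by_cases h3 : od t (r : ℤ) = k ∧ P r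
  · simp only [if_pos h3]
    rw [← Finset.sum_div, compl_sum]

    push_cast
    split_ifs <;> push_cast <;> rfl
  · simp only [if_neg h3]
    simp

open Classical in
theorem gdiff (m N' t k : ℕ) [NeZero m] [NeZero N'] [Fact (Nat.Coprime 2 (m * N'))] (c : ℤ) (P : ℕ → Prop) (E : ℝ)
    (hE : ∑ ξ : ZMod (m * N'), (if ¬ m ∣ ξ.val then ‖CwN (m * N') t k P ξ‖ ^ 2 else 0) ≤ E * (2 ^ t) ^ 2) :
    AvQ (m * N') (fun M => |Gq (m * N') t k c P M - Gq N' t k c P M|) ≤ Real.sqrt E := by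
  obtain ⟨N, hN⟩ : ∃ N : ℝ, N = ((m * N' : ℕ) : ℝ) := ⟨_, rfl⟩
  have hNpos : 0 < N := by
    rw [hN]
    exact_mod_cast Nat.pos_of_ne_zero (NeZero.ne (m * N'))
  have h1 : ∑ x : ZMod (m * N'), (fN m N' t k c P x) ^ 2 ≤ N * E := by
    have e1 : ∀ x : ZMod (m * N'), (fN m N' t k c P x) ^ 2 = ‖∑ ξ : ZMod (m * N'),
      (if ¬ m ∣ ξ.val then (ZMod.stdAddChar (ξ * hn (m * N') ^ t * ((3 ^ k * c : ℤ) : ZMod (m * N'))) : ℂ) *
        CwN (m * N') t k P ξ / 2 ^ t else 0) * (ZMod.stdAddChar (ξ * (-x)) : ℂ)‖ ^ 2 := by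
      intro x
      rw [← fN_fourier, Complex.norm_real, Real.norm_eq_abs, sq_abs]
    rw [Finset.sum_congr rfl (fun x _ => e1 x)]
    have e0 := Equiv.sum_comp (Equiv.neg (ZMod (m * N'))) (fun x => ‖∑ ξ : ZMod (m * N'),
      (if ¬ m ∣ ξ.val then (ZMod.stdAddChar (ξ * hn (m * N') ^ t * ((3 ^ k * c : ℤ) : ZMod (m * N'))) : ℂ) *
        CwN (m * N') t k P ξ / 2 ^ t else 0) * (ZMod.stdAddChar (ξ * x) : ℂ)‖ ^ 2)
    simp only [Equiv.neg_apply] at e0
    rw [e0, pars, ← hN]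
    apply mul_le_mul_of_nonneg_left _ hNpos.le
    have e2 : ∀ ξ : ZMod (m * N'), ‖(if ¬ m ∣ ξ.val then (ZMod.stdAddChar (ξ * hn (m * N') ^ t * ((3 ^ k * c : ℤ) : ZMod (m * N'))) : ℂ) *
        CwN (m * N') t k P ξ / 2 ^ t else 0)‖ ^ 2 =
        (if ¬ m ∣ ξ.val then ‖CwN (m * N') t k P ξ‖ ^ 2 else 0) / (2 ^ t) ^ 2 := by
      intro ξ
      split_ifs
      · simp
      · rw [norm_div, norm_mul, norm_char, one_mul, div_pow, norm_pow, Complex.norm_ofNat]
    rw [Finset.sum_congr rfl (fun ξ _ => e2 ξ), ← Finset.sum_div, div_le_iff₀ (by positivity)]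
    exact hE
  have h2 : ∑ x : ZMod (m * N'), |fN m N' t k c P x| ≤ Real.sqrt (N * (N * E)) := by
    apply Real.le_sqrt_of_sq_le
    have e3 := @sq_sum_le_card_mul_sum_sq (ZMod (m * N')) ℝ _ _ _ _ Finset.univ (fun x => |fN m N' t k c P x|)
    rw [Finset.card_univ, ZMod.card, ← hN] at e3
    refine le_trans e3 ?_
    apply mul_le_mul_of_nonneg_left _ hNpos.le
    simpa only [sq_abs] using h1
  unfold AvQ
  have h3 : ∑ x ∈ Finset.range (m * N'), |Gq (m * N') t k c P ((x : ℕ) : ℤ) - Gq N' t k c P ((x : ℕ) : ℤ)| =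
      ∑ x : ZMod (m * N'), |fN m N' t k c P x| := by
    rw [sum_zmod]
    apply Finset.sum_congr rfl
    intro x _
    rw [← fN_eq]
    push_cast
    rfl
  rw [h3, ← hN, div_le_iff₀ hNpos]
  refine le_trans h2 ?_
  have h4 : N * (N * E) = N ^ 2 * E := by ring
  rw [h4, Real.sqrt_mul (by positivity), Real.sqrt_sq hNpos.le, mul_comm]

end Pool.Agent.Helper3.TD
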