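import Pool.Agent.Helper3.EQ.BandN
import Pool.Agent.Helper3.TD.Mix

/-! Bounds for the inner character sums, general moduli. -/

namespace Pool.Agent.Helper3.TD

open Pool.Agent.Helper3.ND

theorem XN_decay' (m a : ℕ) : ∃ C : ℝ, 0 < C ∧ ∀ (n N : ℕ) (_ : N = m * 3 ^ n) [NeZero N] [Fact (Nat.Coprime 2 N)] (ξ : ZMod N),
    ¬ 3 ∣ ξ.val → ∀ (h M R y t k : ℕ) (S : ℝ),
    h + M = n → (y : ℝ) ≤ (M : ℝ) ^ (3 / 5 : ℝ) → M ≤ R + y → (∀ k, (t.choose k : ℝ) ≤ S) →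
      ‖XN N (2 * R + t) (ξ * 3 ^ h) k‖ * (M : ℝ) ^ a ≤ C * (4 ^ R * S) := by
  obtain ⟨C, hC, H⟩ := XN_decay m a
  refine ⟨C, hC, ?_⟩
  intro n N hN _ _ ξ hξ h M R y t k S h1 h2 h3 h4
  subst hN
  have : NeZero m := ⟨fun h0 => NeZero.ne (m * 3 ^ n) (by rw [h0, zero_mul])⟩
  exact H n ξ hξ h M R y t k S h1 h2 h3 h4

/-- divisibility by `m` as a condition in the ring -/
theorem dvd_val_iff (m N' N : ℕ) [NeZero N] (hN : N = m * N') (ζ : ZMod N) : m ∣ ζ.val ↔ (N' : ZMod N) * ζ = 0 := by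
  have hN'0 : 0 < N' := by
    rcases Nat.eq_zero_or_pos N' with h | h
    · exact absurd (by rw [hN, h, mul_zero]) (NeZero.ne N)
    · exact h
  have h1 : (N' : ZMod N) * ζ = ((N' * ζ.val : ℕ) : ZMod N) := by
    push_cast
    rw [ZMod.natCast_zmod_val]
  rw [h1, ZMod.natCast_eq_zero_iff]
  obtain ⟨v, hv⟩ : ∃ v, v = ζ.val := ⟨_, rfl⟩
  rw [← hv, hN, mul_comm m N']
  exact (Nat.mul_dvd_mul_iff_left hN'0).symm

theorem dvd_val_unit (m N' N : ℕ) [NeZero N] (hN : N = m * N') (ζ v : ZMod N) (hv : IsUnit v) :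
    m ∣ (ζ * v).val ↔ m ∣ ζ.val := by
  rw [dvd_val_iff m N' N hN, dvd_val_iff m N' N hN, ← mul_assoc, hv.mul_left_eq_zero]

theorem n_le_tN {n t k j : ℕ} (hn : 2 * 10 ^ 3 ≤ n) (hj : 100 * j ≤ n) (hnk : n ≤ k + j) (hkt : k ≤ t) (hk : TypK t k) :
    (n : ℝ) ≤ t := by
  have ht : (10 ^ 3 : ℝ) ≤ t := by
    have : 10 ^ 3 ≤ t := by omega
    exact_mod_cast this
  have h2 := rpow_small ht
  unfold TypK at hk
  rw [abs_le] at hk
  have h3 : (n : ℝ) ≤ k + j := by exact_mod_cast hnk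
  have h4 : (100 : ℝ) * j ≤ n := by exact_mod_cast hj
  linarith [hk.2]

theorem uu_le_tN {n t k j : ℕ} (hn : 2 * 10 ^ 3 ≤ n) (hj : 100 * j ≤ n) (hnk : n ≤ k + j) (hkt : k ≤ t) (hk : TypK t k) : uu n ≤ t := by
  have h1 := uu_bound n (by omega)
  have ht : (10 ^ 3 : ℝ) ≤ t := by
    have : 10 ^ 3 ≤ t := by omega
    exact_mod_cast this
  have h2 := rpow_small ht
  unfold TypK at hk
  rw [abs_le] at hk
  have h3 : (n : ℝ) ≤ k + j := by exact_mod_cast hnk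
  have h4 : (5 : ℝ) * uu n ≤ 8 * n := by exact_mod_cast h1
  have h6 : (100 : ℝ) * j ≤ n := by exact_mod_cast hj
  have h5 : (uu n : ℝ) ≤ t := by linarith [hk.2]
  exact_mod_cast h5

theorem beta_boundN (m j : ℕ) : ∃ C : ℝ, 0 < C ∧ ∃ n0 : ℕ, 10 ^ 4 ≤ n0 ∧ 100 * j ≤ n0 ∧ ∀ n, n0 ≤ n → ∀ t k : ℕ, n ≤ k + j → k ≤ t → TypK t k →
    ∀ N : ℕ, N = m * 3 ^ n → ∀ [NeZero N] [Fact (Nat.Coprime 2 N)] (ξ : ZMod N), ¬ 3 ∣ ξ.val → ∀ y : ℕ, GG n y → od (uu n) (y : ℤ) ≤ k →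
      ‖XN N (t - uu n) (ξ * 3 ^ od (uu n) (y : ℤ)) (k - od (uu n) (y : ℤ))‖ ≤
        (C / ((n : ℝ) ^ 5 * Real.sqrt t)) * 2 ^ (t - uu n) := by
  obtain ⟨C1, hC1, H1⟩ := XN_decay' m 6
  obtain ⟨C2, hC2, H2⟩ := XN_decay' m 5
  refine ⟨2 * 10 ^ 6 * C1 + 4 * 10 ^ 5 * C2, by positivity, 10 * 51 ^ 20 + 100 * (j + 1) ^ 2, by omega, by nlinarith, ?_⟩
  intro n hn t k hnk hkt hk N hN _ _ ξ hξ y hy hyk
  have hnj : 100 * (j + 1) ^ 2 ≤ n := by omega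
  have hnj2 : 100 * j ≤ n := by nlinarith
  have hn3 : 10 ^ 3 ≤ n := by omega
  have hut := uu_le_tN (show 2 * 10 ^ 3 ≤ n by omega) hnj2 hnk hkt hk
  have hub := uu_bound n (by omega)
  obtain ⟨u, hu⟩ : ∃ u, u = uu n := ⟨_, rfl⟩
  obtain ⟨A, hA⟩ : ∃ A, A = od (uu n) (y : ℤ) := ⟨_, rfl⟩
  obtain ⟨_, hy2⟩ := hy
  rw [← hA] at hy2 hyk ⊢
  rw [← hu] at hy2 hut hub ⊢
  have hnr : (10 ^ 3 : ℝ) ≤ n := by exact_mod_cast hn3
  have hn0 : (0 : ℝ) < n := by linarith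
  have hsm := rpow_small hnr
  have htr0 : (n : ℝ) ≤ t := n_le_tN (show 2 * 10 ^ 3 ≤ n by omega) hnj2 hnk hkt hk
  have htr : (n : ℝ) ≤ t := htr0
  have ht3 : (10 ^ 3 : ℝ) ≤ t := by linarith
  have ht0 : (0 : ℝ) < t := by linarith
  have hubr : (5 : ℝ) * u ≤ 8 * n := by exact_mod_cast hub
  rw [abs_lt] at hy2
  have hA9 : (A : ℝ) ≤ 9 / 10 * n := by linarith [hy2.2]
  have hAn : A ≤ n := by
    have : (A : ℝ) ≤ n := by linarith
    exact_mod_cast this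
  obtain ⟨M, hM⟩ : ∃ M, A + M = n := ⟨n - A, by omega⟩
  have hMr : (M : ℝ) = n - A := by rw [← hM]; push_cast; ring
  have hM10 : (n : ℝ) ≤ 10 * M := by rw [hMr]; linarith
  have hMn : (M : ℝ) ≤ n := by rw [hMr]; have : (0 : ℝ) ≤ A := by positivity
                               linarith
  have hMpos : (0 : ℝ) < M := by linarith
  have hM51 : (51 : ℝ) ^ 20 ≤ M := by
    have : ((10 * 51 ^ 20 : ℕ) : ℝ) ≤ n := by exact_mod_cast (by omega : 10 * 51 ^ 20 ≤ n)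
    push_cast at this
    linarith
  have hkr : (n : ℝ) ≤ k + j := by exact_mod_cast hnk
  unfold TypK at hk
  rw [abs_le] at hk
  have hsqt : 0 < Real.sqrt t := Real.sqrt_pos.mpr ht0
  have hsr : ((t - u : ℕ) : ℝ) = t - u := by rw [Nat.cast_sub hut]
  by_cases hcase : t ≤ 4 * n
  · -- large frequency
    have h4 : (t : ℝ) ≤ 4 * n := by exact_mod_cast hcase
    obtain ⟨R, hR⟩ : ∃ R, R = (t - u) / 2 := ⟨_, rfl⟩
    obtain ⟨t', ht'⟩ : ∃ t', t' = (t - u) % 2 := ⟨_, rfl⟩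
    have hRt : t - u = 2 * R + t' := by omega
    have ht1 : t' ≤ 1 := by omega
    have hR2 : (t : ℝ) - u ≤ 2 * R + 1 := by
      rw [← hsr, hRt]; push_cast
      have : (t' : ℝ) ≤ 1 := by exact_mod_cast ht1
      linarith
    have hyM : ((M - R : ℕ) : ℝ) ≤ (M : ℝ) ^ (3 / 5 : ℝ) := by
      have e1 : ((M - R : ℕ) : ℝ) ≤ max ((M : ℝ) - R) 0 := by
        rcases le_total R M with h | h
        · rw [Nat.cast_sub h]; exact le_max_left _ _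
        · rw [Nat.sub_eq_zero_of_le h]; simp
      refine le_trans e1 (max_le ?_ (Real.rpow_nonneg hMpos.le _))
      have e2 : (t : ℝ) ^ (11 / 20 : ℝ) ≤ 40 * (M : ℝ) ^ (11 / 20 : ℝ) := by
        refine le_trans ?_ (rpow_mul_le (by norm_num) hMpos.le)
        apply Real.rpow_le_rpow ht0.le _ (by norm_num)
        linarith
      have e3 : (n : ℝ) ^ (11 / 20 : ℝ) ≤ 10 * (M : ℝ) ^ (11 / 20 : ℝ) := by
        refine le_trans ?_ (rpow_mul_le (by norm_num) hMpos.le)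
        apply Real.rpow_le_rpow hn0.le _ (by norm_num)
        linarith
      have e4 := rpow_big hM51
      have e5 : (j : ℝ) + 1 ≤ (M : ℝ) ^ (11 / 20 : ℝ) := by
        have f1 : ((j : ℝ) + 1) ^ 2 ≤ M := by
          have : ((100 * (j + 1) ^ 2 : ℕ) : ℝ) ≤ n := by exact_mod_cast hnj
          push_cast at this
          nlinarith [sq_nonneg ((j : ℝ) + 1)]
        have f2 : (1 : ℝ) ≤ M := by
          have : (1 : ℝ) ≤ 51 ^ 20 := by norm_num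
          linarith
        calc (j : ℝ) + 1 = Real.sqrt (((j : ℝ) + 1) ^ 2) := (Real.sqrt_sq (by positivity)).symm
          _ ≤ Real.sqrt M := Real.sqrt_le_sqrt f1
          _ = (M : ℝ) ^ (1 / 2 : ℝ) := Real.sqrt_eq_rpow _
          _ ≤ _ := Real.rpow_le_rpow_of_exponent_le f2 (by norm_num)
      rw [hMr] at *
      linarith [hk.2, hy2.1]
    have h5 := H1 n N hN ξ hξ A M R (M - R) t' (k - A) (2 ^ t') hM hyM (by omega) (fun i => by exact_mod_cast Nat.choose_le_two_pow t' i)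
    rw [← hRt] at h5
    have h6 : (4 : ℝ) ^ R * 2 ^ t' = 2 ^ (t - u) := by
      rw [hRt, pow_add, pow_mul]; norm_num
    rw [h6] at h5
    have h7 : ‖XN N (t - u) (ξ * 3 ^ A) (k - A)‖ ≤ C1 * 2 ^ (t - u) / (M : ℝ) ^ 6 := by
      rw [le_div_iff₀ (by positivity)]; exact h5
    refine le_trans h7 ?_
    have h8 : C1 / (M : ℝ) ^ 6 ≤ (2 * 10 ^ 6 * C1 + 4 * 10 ^ 5 * C2) / ((n : ℝ) ^ 5 * Real.sqrt t) := by
      rw [div_le_div_iff₀ (by positivity) (by positivity)]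
      have a1 : Real.sqrt t ≤ 2 * n := by
        rw [Real.sqrt_le_left (by positivity)]
        nlinarith
      have a2 : (n : ℝ) ^ 6 ≤ 10 ^ 6 * (M : ℝ) ^ 6 := by
        rw [← mul_pow]; exact pow_le_pow_left₀ hn0.le hM10 6
      calc C1 * ((n : ℝ) ^ 5 * Real.sqrt t) ≤ C1 * ((n : ℝ) ^ 5 * (2 * n)) := by gcongr
        _ = 2 * C1 * (n : ℝ) ^ 6 := by ring
        _ ≤ 2 * C1 * (10 ^ 6 * (M : ℝ) ^ 6) := by gcongr
        _ ≤ (2 * 10 ^ 6 * C1 + 4 * 10 ^ 5 * C2) * (M : ℝ) ^ 6 := by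
            have : 0 ≤ 4 * 10 ^ 5 * C2 * (M : ℝ) ^ 6 := by positivity
            linarith
    calc C1 * 2 ^ (t - u) / (M : ℝ) ^ 6 = C1 / (M : ℝ) ^ 6 * 2 ^ (t - u) := by ring
      _ ≤ _ := mul_le_mul_of_nonneg_right h8 (by positivity)
  · push Not at hcase
    have h4 : (4 : ℝ) * n < t := by exact_mod_cast hcase
    obtain ⟨t', ht'⟩ : ∃ t', t' = t - u - 2 * n := ⟨_, rfl⟩
    have h2n : 2 * n ≤ t - u := by
      have : (2 : ℝ) * n ≤ ((t - u : ℕ) : ℝ) := by rw [hsr]; linarith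
      exact_mod_cast this
    have hRt : t - u = 2 * n + t' := by omega
    have ht'r : (t : ℝ) / 10 ≤ t' := by
      have : ((t - u : ℕ) : ℝ) = 2 * n + t' := by rw [hRt]; push_cast; ring
      rw [hsr] at this
      linarith
    have ht'pos : (0 : ℝ) < t' := by linarith
    have ht'1 : 1 ≤ t' := by
      have : 0 < t' := by exact_mod_cast ht'pos
      omega
    have h5 := H2 n N hN ξ hξ A M n 0 t' (k - A) (2 ^ t' / Real.sqrt t') hM (by simpa using Real.rpow_nonneg hMpos.le _)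
      (by omega) (fun i => choose_bound t' i ht'1)
    rw [← hRt] at h5
    have h6 : (4 : ℝ) ^ n * (2 ^ t' / Real.sqrt t') = 2 ^ (t - u) / Real.sqrt t' := by
      rw [hRt, pow_add, pow_mul]; norm_num; ring
    rw [h6] at h5
    have h7 : ‖XN N (t - u) (ξ * 3 ^ A) (k - A)‖ ≤ C2 * (2 ^ (t - u) / Real.sqrt t') / (M : ℝ) ^ 5 := by
      rw [le_div_iff₀ (by positivity)]; exact h5
    refine le_trans h7 ?_
    have hsq' : 0 < Real.sqrt t' := Real.sqrt_pos.mpr ht'pos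
    have h8 : C2 / (Real.sqrt t' * (M : ℝ) ^ 5) ≤ (2 * 10 ^ 6 * C1 + 4 * 10 ^ 5 * C2) / ((n : ℝ) ^ 5 * Real.sqrt t) := by
      rw [div_le_div_iff₀ (by positivity) (by positivity)]
      have a1 : Real.sqrt t ≤ 4 * Real.sqrt t' := by
        rw [Real.sqrt_le_left (by positivity), mul_pow, Real.sq_sqrt ht'pos.le]
        linarith
      have a2 : (n : ℝ) ^ 5 ≤ 10 ^ 5 * (M : ℝ) ^ 5 := by
        rw [← mul_pow]; exact pow_le_pow_left₀ hn0.le hM10 5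
      calc C2 * ((n : ℝ) ^ 5 * Real.sqrt t) ≤ C2 * ((10 ^ 5 * (M : ℝ) ^ 5) * (4 * Real.sqrt t')) := by gcongr
        _ = 4 * 10 ^ 5 * C2 * (Real.sqrt t' * (M : ℝ) ^ 5) := by ring
        _ ≤ (2 * 10 ^ 6 * C1 + 4 * 10 ^ 5 * C2) * (Real.sqrt t' * (M : ℝ) ^ 5) := by
            have : 0 ≤ 2 * 10 ^ 6 * C1 * (Real.sqrt t' * (M : ℝ) ^ 5) := by positivity
            linarith
    calc C2 * (2 ^ (t - u) / Real.sqrt t') / (M : ℝ) ^ 5 = C2 / (Real.sqrt t' * (M : ℝ) ^ 5) * 2 ^ (t - u) := by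
          field_simp
      _ ≤ _ := mul_le_mul_of_nonneg_right h8 (by positivity)

end Pool.Agent.Helper3.TD
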