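import Pool.Agent.Helper3.EQ.CharN
import Pool.Agent.Helper3.TD.Band
import Pool.Agent.Helper3.TD.Typ

/-! Character sums of the additive constants of trajectories. -/

namespace Pool.Agent.Helper3.TD

open Pool.Agent.Helper3.ND

theorem hn_pow (N : ℕ) [Fact (Nat.Coprime 2 N)] (u : ℕ) : (2 : ZMod N) ^ u * hn N ^ u = 1 := by
  rw [← mul_pow, two_hn, one_pow]

theorem cc_split (s u : ℕ) (r : ℤ) :
    cc (s + u) r = 3 ^ od u (yy s u r : ℤ) * cc s r + 2 ^ s * cc u (yy s u r : ℤ) := by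
  have h1 := T_split s u r
  have h2 := affine (s + u) r
  have h3 := affine s r
  have h4 := od_split s u r
  have h5 : (3 : ℤ) ^ od (s + u) r = 3 ^ od u (yy s u r : ℤ) * 3 ^ od s r := by
    rw [h4, pow_add]; ring
  have h6 : (2 : ℤ) ^ (s + u) * T^[s + u] r = 2 ^ s * (2 ^ u * T^[s + u] r) := by rw [pow_add]; ring
  rw [h5] at h2
  rw [h1] at h6
  linear_combination h6 - h2 + 3 ^ od u (yy s u r : ℤ) * h3

/-- the character sum over the constants equals the recursive sum -/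
theorem CsN (N : ℕ) [NeZero N] [Fact (Nat.Coprime 2 N)] (t : ℕ) : ∀ (k : ℕ) (z : ZMod N),
    (∑ r ∈ Finset.range (2 ^ t), if od t (r : ℤ) = k then
      (ZMod.stdAddChar (z * hn N ^ t * ((cc t (r : ℤ) : ℤ) : ZMod N)) : ℂ) else 0) = XN N t z k := by
  induction t with
  | zero =>
    intro k z
    simp only [pow_zero, Finset.range_one, Finset.sum_singleton, Nat.cast_zero, od, cc, Int.cast_zero, mul_zero,
      AddChar.map_zero_eq_one]
    cases k <;> simp [XN]
  | succ t ih =>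
    intro k z
    have h0 := sum_last t (fun (o : ℕ) (c : ℤ) => if o = k then
      (ZMod.stdAddChar (z * hn N ^ (t + 1) * ((c : ℤ) : ZMod N)) : ℂ) else 0)
    rw [h0, Finset.sum_add_distrib]
    have e1 : ∀ r ∈ Finset.range (2 ^ t), (if od t (r : ℤ) = k then
        (ZMod.stdAddChar (z * hn N ^ (t + 1) * ((cc t (r : ℤ) : ℤ) : ZMod N)) : ℂ) else 0) =
        if od t (r : ℤ) = k then (ZMod.stdAddChar (hn N * z * hn N ^ t * ((cc t (r : ℤ) : ℤ) : ZMod N)) : ℂ) else 0 := by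
      intro r _
      have : z * hn N ^ (t + 1) * ((cc t (r : ℤ) : ℤ) : ZMod N) = hn N * z * hn N ^ t * ((cc t (r : ℤ) : ℤ) : ZMod N) := by
        rw [pow_succ]; ring
      rw [this]
    rw [Finset.sum_congr rfl e1, ih k (hn N * z)]
    cases k with
    | zero =>
      have e2 : ∑ r ∈ Finset.range (2 ^ t), (if od t (r : ℤ) + 1 = 0 then
          (ZMod.stdAddChar (z * hn N ^ (t + 1) * ((3 * cc t (r : ℤ) + 2 ^ t : ℤ) : ZMod N)) : ℂ) else 0) = 0 := by
        apply Finset.sum_eq_zero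
        intro r _
        rw [if_neg (by omega)]
      rw [e2, add_zero]
      simp only [XN]
    | succ k =>
      have e2 : ∀ r ∈ Finset.range (2 ^ t), (if od t (r : ℤ) + 1 = k + 1 then
          (ZMod.stdAddChar (z * hn N ^ (t + 1) * ((3 * cc t (r : ℤ) + 2 ^ t : ℤ) : ZMod N)) : ℂ) else 0) =
          (ZMod.stdAddChar (hn N * z) : ℂ) * if od t (r : ℤ) = k then
            (ZMod.stdAddChar (3 * (hn N * z) * hn N ^ t * ((cc t (r : ℤ) : ℤ) : ZMod N)) : ℂ) else 0 := by
        intro r _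
        by_cases h : od t (r : ℤ) = k
        · rw [if_pos (by omega), if_pos h, ← AddChar.map_add_eq_mul]
          congr 1
          have h2 := hn_pow N t
          push_cast
          calc z * hn N ^ (t + 1) * (3 * ((cc t (r : ℤ) : ℤ) : ZMod N) + 2 ^ t)
              = hn N * z * (2 ^ t * hn N ^ t) + 3 * (hn N * z) * hn N ^ t * ((cc t (r : ℤ) : ℤ) : ZMod N) := by
                rw [pow_succ]; ring
            _ = _ := by rw [h2, mul_one]
        · rw [if_neg (by omega), if_neg h, mul_zero]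
      rw [Finset.sum_congr rfl e2, ← Finset.mul_sum, ih k (3 * (hn N * z))]
      simp only [XN]

theorem CsN_split (N : ℕ) [NeZero N] [Fact (Nat.Coprime 2 N)] (s u k : ℕ) (z : ZMod N) (w : ℕ → ℂ) :
    (∑ r ∈ Finset.range (2 ^ (s + u)), if od (s + u) (r : ℤ) = k then
        w (yy s u r) * (ZMod.stdAddChar (z * hn N ^ (s + u) * ((cc (s + u) (r : ℤ) : ℤ) : ZMod N)) : ℂ) else 0) =
      ∑ y ∈ Finset.range (2 ^ u), if od u (y : ℤ) ≤ k then
        w y * (ZMod.stdAddChar (z * hn N ^ u * ((cc u (y : ℤ) : ℤ) : ZMod N)) : ℂ) *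
          XN N s (z * hn N ^ u * 3 ^ od u (y : ℤ)) (k - od u (y : ℤ)) else 0 := by
  obtain ⟨f, hf'⟩ : ∃ f : ℕ → ℕ → ℂ, f = fun r1 y : ℕ => if od s (r1 : ℤ) + od u (y : ℤ) = k then
        w y * ((ZMod.stdAddChar (z * hn N ^ u * ((cc u (y : ℤ) : ℤ) : ZMod N)) : ℂ) *
        (ZMod.stdAddChar (z * hn N ^ u * 3 ^ od u (y : ℤ) * hn N ^ s * ((cc s (r1 : ℤ) : ℤ) : ZMod N)) : ℂ)) else 0 := ⟨_, rfl⟩
  have h1 : (∑ r ∈ Finset.range (2 ^ (s + u)), if od (s + u) (r : ℤ) = k then
        w (yy s u r) * (ZMod.stdAddChar (z * hn N ^ (s + u) * ((cc (s + u) (r : ℤ) : ℤ) : ZMod N)) : ℂ) else 0) =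
      ∑ r ∈ Finset.range (2 ^ (s + u)), f (r % 2 ^ s) (yy s u r) := by
    apply Finset.sum_congr rfl
    intro r _
    rw [hf']
    simp only
    have hcc : cc s (r : ℤ) = cc s ((r % 2 ^ s : ℕ) : ℤ) := by
      have := cc_emod s (r : ℤ)
      rw [← this]; push_cast; rfl
    rw [← od_mod, ← od_split, ← hcc]
    split_ifs with hk
    · rw [← AddChar.map_add_eq_mul]
      congr 2
      have h2 := hn_pow N s
      rw [cc_split s u (r : ℤ)]
      push_cast
      calc z * hn N ^ (s + u) * (3 ^ od u (yy s u r : ℤ) * ((cc s (r : ℤ) : ℤ) : ZMod N) + 2 ^ s * ((cc u (yy s u r : ℤ) : ℤ) : ZMod N))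
          = z * hn N ^ u * (2 ^ s * hn N ^ s) * ((cc u (yy s u r : ℤ) : ℤ) : ZMod N) +
            z * hn N ^ u * 3 ^ od u (yy s u r : ℤ) * hn N ^ s * ((cc s (r : ℤ) : ℤ) : ZMod N) := by
            rw [pow_add]; ring
        _ = _ := by rw [h2, mul_one]
    · rfl
  rw [h1, sum_split, Finset.sum_comm]
  apply Finset.sum_congr rfl
  intro y _
  rw [hf']
  simp only
  split_ifs with hy
  · rw [← CsN N s, Finset.mul_sum]
    apply Finset.sum_congr rfl
    intro r1 _
    by_cases h2 : od s (r1 : ℤ) + od u (y : ℤ) = k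
    · rw [if_pos h2, if_pos (by omega)]
      ring
    · rw [if_neg h2, if_neg (by omega), mul_zero]
  · apply Finset.sum_eq_zero
    intro r1 _
    rw [if_neg (by omega)]

theorem zmod_injN {N u : ℕ} [Fact (Nat.Coprime 2 N)] {a b : ℤ} (ha0 : 0 ≤ a) (ha : a < N) (hb0 : 0 ≤ b) (hb : b < N)
    (h : hn N ^ u * (a : ZMod N) = hn N ^ u * (b : ZMod N)) : a = b := by
  have h1 : (a : ZMod N) = (b : ZMod N) := ((hn_unit N).pow u).mul_left_cancel h
  have h2 := dvd_of_castN h1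
  have h3 : |a - b| < N := by rw [abs_lt]; constructor <;> linarith
  have := Int.eq_zero_of_abs_lt_dvd h2 h3
  omega

open Classical in
/-- inner character sum over the good last digits -/
noncomputable def IbN (N : ℕ) [NeZero N] (u : ℕ) (G : ℕ → Prop) (B : ℕ) (ξ : ZMod N) : ℂ :=
  ∑ y ∈ Finset.range (2 ^ u), if G y ∧ od u (y : ℤ) = B then
    (ZMod.stdAddChar (ξ * hn N ^ u * ((cc u (y : ℤ) : ℤ) : ZMod N)) : ℂ) else 0

open Classical in
theorem IbN_sq (N : ℕ) [NeZero N] [Fact (Nat.Coprime 2 N)] (u : ℕ) (G : ℕ → Prop) (B : ℕ) (hG : ∀ y < 2 ^ u, G y → cc u (y : ℤ) < N) :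
    ∑ ξ : ZMod N, ‖IbN N u G B ξ‖ ^ 2 ≤
      (N : ℝ) * ((Finset.range (2 ^ u)).filter (fun y : ℕ => G y ∧ od u (y : ℤ) = B)).card := by
  obtain ⟨S, hS⟩ : ∃ S, S = (Finset.range (2 ^ u)).filter (fun y : ℕ => G y ∧ od u (y : ℤ) = B) := ⟨_, rfl⟩
  obtain ⟨b, hb⟩ : ∃ b : ℕ → ZMod N, b = fun y : ℕ => hn N ^ u * ((cc u (y : ℤ) : ℤ) : ZMod N) := ⟨_, rfl⟩
  rw [← hS]
  have hinj : Set.InjOn b (S : Set ℕ) := by
    intro y hy y' hy' h
    rw [hS, Finset.mem_coe, Finset.mem_filter, Finset.mem_range] at hy hy'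
    rw [hb] at h
    simp only at h
    apply cc_inj hy.1 hy'.1 (by rw [hy.2.2, hy'.2.2])
    exact zmod_injN (cc_nonneg _ _) (hG _ hy.1 hy.2.1) (cc_nonneg _ _) (hG _ hy'.1 hy'.2.1) h
  obtain ⟨c, hc⟩ : ∃ c : ZMod N → ℂ, c = fun x => if x ∈ S.image b then 1 else 0 := ⟨_, rfl⟩
  have h1 : ∀ ξ, IbN N u G B ξ = ∑ x : ZMod N, c x * (ZMod.stdAddChar (x * ξ) : ℂ) := by
    intro ξ
    unfold IbN
    rw [← Finset.sum_filter, ← hS, hc]
    simp only [ite_mul, one_mul, zero_mul]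
    rw [← Finset.sum_filter, Finset.filter_mem_eq_inter, Finset.univ_inter, Finset.sum_image hinj]
    apply Finset.sum_congr rfl
    intro y _
    rw [hb]
    congr 1
    ring
  rw [Finset.sum_congr rfl (fun ξ _ => by rw [h1 ξ]), pars]
  have h2 : ∑ ξ : ZMod N, ‖c ξ‖ ^ 2 = (S.card : ℝ) := by
    rw [hc]
    have : ∀ ξ : ZMod N, ‖(if ξ ∈ S.image b then (1 : ℂ) else 0)‖ ^ 2 = if ξ ∈ S.image b then (1 : ℝ) else 0 := by
      intro ξ; split_ifs <;> simp
    rw [Finset.sum_congr rfl (fun ξ _ => this ξ), ← Finset.sum_filter, Finset.filter_mem_eq_inter,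
      Finset.univ_inter, Finset.sum_const, nsmul_eq_mul, mul_one, Finset.card_image_of_injOn hinj]
  rw [h2]

open Classical in
/-- the weighted character sum -/
noncomputable def CwN (N : ℕ) [NeZero N] (t k : ℕ) (P : ℕ → Prop) (ξ : ZMod N) : ℂ :=
  ∑ r ∈ Finset.range (2 ^ t), if od t (r : ℤ) = k then
    (if P r then 1 else 0) * (ZMod.stdAddChar (ξ * hn N ^ t * ((cc t (r : ℤ) : ℤ) : ZMod N)) : ℂ) else 0

open Classical in
theorem CwN_true (N : ℕ) [NeZero N] [Fact (Nat.Coprime 2 N)] (t k : ℕ) (ξ : ZMod N) :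
    CwN N t k (fun _ => True) ξ = XN N t ξ k := by
  rw [← CsN]
  unfold CwN
  apply Finset.sum_congr rfl
  intro r _
  rw [if_pos trivial, one_mul]

open Classical in
theorem CwN_eq (N : ℕ) [NeZero N] [Fact (Nat.Coprime 2 N)] (s u k : ℕ) (G : ℕ → Prop) (ξ : ZMod N) :
    CwN N (s + u) k (fun r => G (yy s u r)) ξ = ∑ B ∈ Finset.range (u + 1),
      (if B ≤ k then XN N s (ξ * hn N ^ u * 3 ^ B) (k - B) else 0) * IbN N u G B ξ := by
  unfold CwN
  rw [CsN_split N s u k ξ (fun y => if G y then 1 else 0)]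
  unfold IbN
  rw [Finset.sum_congr rfl (fun B _ => Finset.mul_sum _ _ _), Finset.sum_comm]
  apply Finset.sum_congr rfl
  intro y _
  have hB : od u (y : ℤ) ∈ Finset.range (u + 1) := by
    rw [Finset.mem_range]; have := od_le u (y : ℤ); omega
  rw [Finset.sum_eq_single_of_mem _ hB]
  · by_cases h1 : od u (y : ℤ) ≤ k
    · rw [if_pos h1, if_pos h1]
      by_cases h2 : G y
      · simp [h2]; ring
      · simp [h2]
    · rw [if_neg h1, if_neg h1, zero_mul]
  · intro B _ hne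
    have h3 : ¬ (G y ∧ od u (y : ℤ) = B) := fun h => hne h.2.symm
    rw [if_neg h3, mul_zero]

open Classical in
theorem CwN_sq (N : ℕ) [NeZero N] [Fact (Nat.Coprime 2 N)] (R : ZMod N → Prop) (s u k : ℕ) (G : ℕ → Prop)
    (hG : ∀ y < 2 ^ u, G y → cc u (y : ℤ) < N) (β : ℝ) (hβ0 : 0 ≤ β)
    (hβ : ∀ ξ : ZMod N, R ξ → ∀ y < 2 ^ u, G y → od u (y : ℤ) ≤ k →
      ‖XN N s (ξ * hn N ^ u * 3 ^ od u (y : ℤ)) (k - od u (y : ℤ))‖ ≤ β * 2 ^ s) :
    ∑ ξ : ZMod N, (if R ξ then ‖CwN N (s + u) k (fun r => G (yy s u r)) ξ‖ ^ 2 else 0) ≤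
      (u + 1) * (β * 2 ^ s) ^ 2 * ((N : ℝ) * 2 ^ u) := by
  have h1 : ∀ ξ : ZMod N, (if R ξ then ‖CwN N (s + u) k (fun r => G (yy s u r)) ξ‖ ^ 2 else 0) ≤
      (u + 1) * (β * 2 ^ s) ^ 2 * ∑ B ∈ Finset.range (u + 1), ‖IbN N u G B ξ‖ ^ 2 := by
    intro ξ
    split_ifs with hξ
    · rw [CwN_eq N s u k]
      have h2 : ∀ B ∈ Finset.range (u + 1), ‖(if B ≤ k then XN N s (ξ * hn N ^ u * 3 ^ B) (k - B) else 0) * IbN N u G B ξ‖ ≤
          (β * 2 ^ s) * ‖IbN N u G B ξ‖ := by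
        intro B _
        by_cases hI : IbN N u G B ξ = 0
        · rw [hI]; simp
        · rw [norm_mul]
          apply mul_le_mul_of_nonneg_right _ (norm_nonneg _)
          have hex : ∃ y < 2 ^ u, G y ∧ od u (y : ℤ) = B := by
            by_contra hc
            apply hI
            unfold IbN
            apply Finset.sum_eq_zero
            intro y hy
            rw [Finset.mem_range] at hy
            rw [if_neg]
            intro h
            exact hc ⟨y, hy, h⟩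
          obtain ⟨y, hy, hGy, hod⟩ := hex
          split_ifs with hB
          · rw [← hod]
            rw [← hod] at hB
            exact hβ _ hξ y hy hGy hB
          · rw [norm_zero]; positivity
      calc ‖∑ B ∈ Finset.range (u + 1), (if B ≤ k then XN N s (ξ * hn N ^ u * 3 ^ B) (k - B) else 0) * IbN N u G B ξ‖ ^ 2
          ≤ (∑ B ∈ Finset.range (u + 1), (β * 2 ^ s) * ‖IbN N u G B ξ‖) ^ 2 := by
            apply pow_le_pow_left₀ (norm_nonneg _)
            exact le_trans (norm_sum_le _ _) (Finset.sum_le_sum h2)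
        _ = (β * 2 ^ s) ^ 2 * (∑ B ∈ Finset.range (u + 1), ‖IbN N u G B ξ‖) ^ 2 := by
            rw [← Finset.mul_sum, mul_pow]
        _ ≤ (β * 2 ^ s) ^ 2 * ((Finset.range (u + 1)).card * ∑ B ∈ Finset.range (u + 1), ‖IbN N u G B ξ‖ ^ 2) := by
            apply mul_le_mul_of_nonneg_left _ (by positivity)
            exact sq_sum_le_card_mul_sum_sq
        _ = _ := by rw [Finset.card_range]; push_cast; ring
    · have : 0 ≤ ∑ B ∈ Finset.range (u + 1), ‖IbN N u G B ξ‖ ^ 2 := Finset.sum_nonneg (fun _ _ => by positivity)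
      positivity
  refine le_trans (Finset.sum_le_sum (fun ξ _ => h1 ξ)) ?_
  rw [← Finset.mul_sum]
  apply mul_le_mul_of_nonneg_left _ (by positivity)
  rw [Finset.sum_comm]
  calc ∑ B ∈ Finset.range (u + 1), ∑ ξ : ZMod N, ‖IbN N u G B ξ‖ ^ 2
      ≤ ∑ B ∈ Finset.range (u + 1), (N : ℝ) * ((Finset.range (2 ^ u)).filter (fun y : ℕ => G y ∧ od u (y : ℤ) = B)).card :=
        Finset.sum_le_sum (fun B _ => IbN_sq N u G B hG)
    _ = (N : ℝ) * ((∑ B ∈ Finset.range (u + 1), ((Finset.range (2 ^ u)).filter (fun y : ℕ => G y ∧ od u (y : ℤ) = B)).card : ℕ) : ℝ) := by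
        rw [← Finset.mul_sum]; push_cast; rfl
    _ ≤ (N : ℝ) * ((2 ^ u : ℕ) : ℝ) := by
        apply mul_le_mul_of_nonneg_left _ (by positivity)
        have h3 : ∑ B ∈ Finset.range (u + 1), ((Finset.range (2 ^ u)).filter (fun y : ℕ => G y ∧ od u (y : ℤ) = B)).card ≤ 2 ^ u := by
          calc ∑ B ∈ Finset.range (u + 1), ((Finset.range (2 ^ u)).filter (fun y : ℕ => G y ∧ od u (y : ℤ) = B)).card
              ≤ ∑ B ∈ Finset.range (u + 1), ((Finset.range (2 ^ u)).filter (fun y : ℕ => od u (y : ℤ) = B)).card := by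
                apply Finset.sum_le_sum
                intro B _
                apply Finset.card_le_card
                intro y hy
                rw [Finset.mem_filter] at hy ⊢
                exact ⟨hy.1, hy.2.2⟩
            _ = (Finset.range (2 ^ u)).card := by
                rw [← Finset.card_eq_sum_card_fiberwise]
                intro y _
                simp only [Finset.coe_range, Set.mem_Iio]
                have := od_le u (y : ℤ)
                omega
            _ = 2 ^ u := Finset.card_range _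
        exact_mod_cast h3
    _ = _ := by push_cast; rfl

end Pool.Agent.Helper3.TD
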