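import Pool.Agent.Helper3.EQ.DecL
import Pool.Agent.Helper3.TD.Char

/-! Character sums over parity strings for a general odd modulus. -/

namespace Pool.Agent.Helper3.TD

open Complex

/-- inverse of `2` -/
noncomputable def hn (N : ℕ) : ZMod N := (2 : ZMod N)⁻¹

theorem two_hn (N : ℕ) [hN : Fact (Nat.Coprime 2 N)] : (2 : ZMod N) * hn N = 1 := by
  have h : Nat.Coprime 2 N := hN.out
  have := ZMod.coe_mul_inv_eq_one 2 h
  unfold hn
  exact_mod_cast this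

/-- character sum over parity strings of length `t` with `k` ones -/
noncomputable def XN (N : ℕ) [NeZero N] : ℕ → ZMod N → ℕ → ℂ
  | 0, _, k => if k = 0 then 1 else 0
  | t + 1, z, 0 => XN N t (hn N * z) 0
  | t + 1, z, k + 1 => XN N t (hn N * z) (k + 1) + ZMod.stdAddChar (hn N * z) * XN N t (3 * (hn N * z)) k


theorem XN_le_choose (N : ℕ) [NeZero N] (t : ℕ) : ∀ z k, ‖XN N t z k‖ ≤ (t.choose k : ℝ) := by
  induction t with
  | zero =>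
    intro z k
    cases k with
    | zero => simp [XN]
    | succ k => simp [XN]
  | succ t ih =>
    intro z k
    cases k with
    | zero =>
      have := ih (hn N * z) 0
      simpa [XN] using this
    | succ k =>
      have h1 := ih (hn N * z) (k + 1)
      have h2 := ih (3 * (hn N * z)) k
      rw [Nat.choose_succ_succ]
      push_cast
      calc ‖XN N (t + 1) z (k + 1)‖ ≤ ‖XN N t (hn N * z) (k + 1)‖ + ‖(ZMod.stdAddChar (hn N * z) : ℂ) * XN N t (3 * (hn N * z)) k‖ := by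
            simp only [XN]; exact norm_add_le _ _
        _ = ‖XN N t (hn N * z) (k + 1)‖ + ‖XN N t (3 * (hn N * z)) k‖ := by
            rw [norm_mul, norm_char, one_mul]
        _ ≤ _ := by linarith

/-- value with index shift, zero for negative index -/
noncomputable def XmN (N : ℕ) [NeZero N] (t : ℕ) (z : ZMod N) (k s : ℕ) : ℂ := if s ≤ k then XN N t z (k - s) else 0

theorem XN_two (N : ℕ) [NeZero N] [Fact (Nat.Coprime 2 N)] (t : ℕ) (z : ZMod N) (k : ℕ) :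
    ‖XN N (t + 2) z k‖ ≤ ‖XmN N t (hn N ^ 2 * z) k 0‖ +
      ‖1 + (ZMod.stdAddChar (hn N ^ 2 * z) : ℂ)‖ * ‖XmN N t (3 * (hn N ^ 2 * z)) k 1‖ +
      ‖XmN N t (9 * (hn N ^ 2 * z)) k 2‖ := by
  have e1 : hn N * (hn N * z) = hn N ^ 2 * z := by ring
  have e2 : hn N * (3 * (hn N * z)) = 3 * (hn N ^ 2 * z) := by ring
  have e3 : 3 * (3 * (hn N ^ 2 * z)) = 9 * (hn N ^ 2 * z) := by ring
  have e4 : hn N * z = 2 * (hn N ^ 2 * z) := by
    have := two_hn N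
    calc hn N * z = (2 * hn N) * (hn N * z) := by rw [this, one_mul]
      _ = _ := by ring
  rcases k with _ | _ | k
  · simp only [XN, XmN, e1]
    simp
  · simp only [XN, XmN, zero_add, e1, e2]
    have h1 : XN N t (hn N ^ 2 * z) 1 + (ZMod.stdAddChar (hn N ^ 2 * z) : ℂ) * XN N t (3 * (hn N ^ 2 * z)) 0 +
        (ZMod.stdAddChar (hn N * z) : ℂ) * XN N t (3 * (hn N ^ 2 * z)) 0 =
        XN N t (hn N ^ 2 * z) 1 + (ZMod.stdAddChar (hn N ^ 2 * z) : ℂ) *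
          ((1 + (ZMod.stdAddChar (hn N ^ 2 * z) : ℂ)) * XN N t (3 * (hn N ^ 2 * z)) 0) := by
      have : (ZMod.stdAddChar (hn N * z) : ℂ) = (ZMod.stdAddChar (hn N ^ 2 * z) : ℂ) * (ZMod.stdAddChar (hn N ^ 2 * z) : ℂ) := by
        rw [← AddChar.map_add_eq_mul]; congr 1; rw [e4]; ring
      rw [this]; ring
    rw [h1]
    refine le_trans (norm_add_le _ _) ?_
    rw [norm_mul, norm_char, one_mul, norm_mul]
    simp
  · simp only [XN, XmN, e1, e2, e3]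
    have h1 : XN N t (hn N ^ 2 * z) (k + 1 + 1) + (ZMod.stdAddChar (hn N ^ 2 * z) : ℂ) * XN N t (3 * (hn N ^ 2 * z)) (k + 1) +
        (ZMod.stdAddChar (hn N * z) : ℂ) * (XN N t (3 * (hn N ^ 2 * z)) (k + 1) +
          (ZMod.stdAddChar (3 * (hn N ^ 2 * z)) : ℂ) * XN N t (9 * (hn N ^ 2 * z)) k) =
        XN N t (hn N ^ 2 * z) (k + 1 + 1) + (ZMod.stdAddChar (hn N ^ 2 * z) : ℂ) *
          ((1 + (ZMod.stdAddChar (hn N ^ 2 * z) : ℂ)) * XN N t (3 * (hn N ^ 2 * z)) (k + 1)) +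
        (ZMod.stdAddChar (hn N * z) : ℂ) * ((ZMod.stdAddChar (3 * (hn N ^ 2 * z)) : ℂ) * XN N t (9 * (hn N ^ 2 * z)) k) := by
      have : (ZMod.stdAddChar (hn N * z) : ℂ) = (ZMod.stdAddChar (hn N ^ 2 * z) : ℂ) * (ZMod.stdAddChar (hn N ^ 2 * z) : ℂ) := by
        rw [← AddChar.map_add_eq_mul]; congr 1; rw [e4]; ring
      rw [this]; ring
    rw [h1]
    refine le_trans (norm_add_le _ _) ?_
    refine add_le_add (le_trans (norm_add_le _ _) ?_) ?_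
    · rw [norm_mul, norm_char, one_mul, norm_mul]
      simp
    · rw [norm_mul, norm_char, one_mul, norm_mul, norm_char, one_mul]
      simp

/-- lattice values -/
noncomputable def xvN (N : ℕ) (ξ : ZMod N) (j h : ℕ) : ZMod N := ξ * 3 ^ h * (hn N ^ 2) ^ (j + 1)

noncomputable def pvN (N : ℕ) (ξ : ZMod N) (j h : ℕ) : ℤ := (xvN N ξ j h).valMinAbs

noncomputable def gvN (N : ℕ) [NeZero N] (ξ : ZMod N) (j h : ℕ) : ℝ := ‖1 + (ZMod.stdAddChar (xvN N ξ j h) : ℂ)‖ / 2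

theorem XN_le_V (N : ℕ) [NeZero N] [Fact (Nat.Coprime 2 N)] (ξ : ZMod N) (t : ℕ) (S : ℝ) (hS : ∀ k, (t.choose k : ℝ) ≤ S) (R : ℕ) :
    ∀ j h k, ‖XN N (2 * R + t) (ξ * 3 ^ h * (hn N ^ 2) ^ j) k‖ ≤ 4 ^ R * S * V (gvN N ξ) R j h := by
  have hS0 : 0 ≤ S := le_trans (by positivity) (hS 0)
  have hg0 : ∀ j h, 0 ≤ gvN N ξ j h := fun j h => by unfold gvN; positivity
  induction R with
  | zero =>
    intro j h k
    rw [V_zero]
    simpa using le_trans (XN_le_choose N t _ k) (hS k)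
  | succ R ih =>
    intro j h k
    have hm : ∀ h' s, ‖XmN N (2 * R + t) (ξ * 3 ^ h' * (hn N ^ 2) ^ (j + 1)) k s‖ ≤ 4 ^ R * S * V (gvN N ξ) R (j + 1) h' := by
      intro h' s
      unfold XmN
      split_ifs with hs
      · exact ih (j + 1) h' _
      · rw [norm_zero]
        exact mul_nonneg (mul_nonneg (by positivity) hS0) (V_nonneg hg0 _ _ _)
    have e : 2 * (R + 1) + t = (2 * R + t) + 2 := by ring
    have e0 : hn N ^ 2 * (ξ * 3 ^ h * (hn N ^ 2) ^ j) = ξ * 3 ^ h * (hn N ^ 2) ^ (j + 1) := by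
      rw [pow_succ]; ring
    have e1 : 3 * (ξ * 3 ^ h * (hn N ^ 2) ^ (j + 1)) = ξ * 3 ^ (h + 1) * (hn N ^ 2) ^ (j + 1) := by
      rw [pow_succ 3]; ring
    have e2 : 9 * (ξ * 3 ^ h * (hn N ^ 2) ^ (j + 1)) = ξ * 3 ^ (h + 2) * (hn N ^ 2) ^ (j + 1) := by
      rw [pow_add]; ring
    rw [e]
    refine le_trans (XN_two N _ _ k) ?_
    rw [e0, e1, e2]
    have a0 := hm h 0
    have a1 := hm (h + 1) 1
    have a2 := hm (h + 2) 2
    have hgx : ‖1 + (ZMod.stdAddChar (ξ * 3 ^ h * (hn N ^ 2) ^ (j + 1)) : ℂ)‖ = 2 * gvN N ξ j h := by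
      unfold gvN xvN; ring
    rw [hgx]
    have a3 := mul_le_mul_of_nonneg_left a1 (show 0 ≤ 2 * gvN N ξ j h by linarith [hg0 j h])
    rw [V_succ, pow_succ (4 : ℝ) R]
    linarith

theorem pvN_cast (N : ℕ) [NeZero N] (ξ : ZMod N) (j h : ℕ) : ((pvN N ξ j h : ℤ) : ZMod N) = xvN N ξ j h :=
  ZMod.coe_valMinAbs _

theorem four_hn (N : ℕ) [Fact (Nat.Coprime 2 N)] : (4 : ZMod N) * hn N ^ 2 = 1 := by
  have := two_hn N
  calc (4 : ZMod N) * hn N ^ 2 = (2 * hn N) * (2 * hn N) := by ring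
    _ = 1 := by rw [this, one_mul]

theorem dvd_of_castN {N : ℕ} {a b : ℤ} (h : (a : ZMod N) = (b : ZMod N)) : (N : ℤ) ∣ a - b := by
  rw [← ZMod.intCast_zmod_eq_zero_iff_dvd, Int.cast_sub, h, sub_self]

theorem arr_pvN (N : ℕ) [NeZero N] [Fact (Nat.Coprime 2 N)] (ξ : ZMod N) : Arr (N : ℤ) (pvN N ξ) where
  pos := by exact_mod_cast Nat.pos_of_ne_zero (NeZero.ne N)
  half := by
    intro j h
    have := ZMod.valMinAbs_mem_Ioc (xvN N ξ j h)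
    rw [Set.mem_Ioc] at this
    have h2 : (2 : ℤ) * |pvN N ξ j h| = |pvN N ξ j h * 2| := by rw [abs_mul]; norm_num; ring
    rw [h2, abs_le]
    exact ⟨this.1.le, this.2⟩
  up := by
    intro j h
    apply dvd_of_castN
    push_cast
    rw [pvN_cast, pvN_cast]
    unfold xvN
    rw [pow_succ 3]; ring
  right := by
    intro j h
    apply dvd_of_castN
    push_cast
    rw [pvN_cast, pvN_cast]
    unfold xvN
    have := four_hn N
    calc ξ * 3 ^ h * (hn N ^ 2) ^ (j + 1) = (4 * hn N ^ 2) * (ξ * 3 ^ h * (hn N ^ 2) ^ (j + 1)) := by rw [this, one_mul]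
      _ = _ := by rw [pow_succ _ (j + 1)]; ring

theorem hn_unit (N : ℕ) [Fact (Nat.Coprime 2 N)] : IsUnit (hn N) := IsUnit.of_mul_eq_one_right _ (two_hn N)


/-- size of the residues for a frequency not divisible by `3` -/
theorem size_pvN (m n : ℕ) [NeZero m] [Fact (Nat.Coprime 2 (m * 3 ^ n))] (ξ : ZMod (m * 3 ^ n)) (hξ : ¬ 3 ∣ ξ.val)
    (j h : ℕ) (hh : h < n) : 3 ^ h ≤ |pvN (m * 3 ^ n) ξ j h| := by
  have h1 := pvN_cast (m * 3 ^ n) ξ j h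
  have h2 := four_hn (m * 3 ^ n)
  have h3 : (((4 : ℤ) ^ (j + 1) * pvN (m * 3 ^ n) ξ j h : ℤ) : ZMod (m * 3 ^ n)) = (((ξ.val : ℤ) * 3 ^ h : ℤ) : ZMod (m * 3 ^ n)) := by
    push_cast
    rw [h1, ZMod.natCast_zmod_val]
    unfold xvN
    calc (4 : ZMod (m * 3 ^ n)) ^ (j + 1) * (ξ * 3 ^ h * (hn (m * 3 ^ n) ^ 2) ^ (j + 1))
        = ξ * 3 ^ h * (4 * hn (m * 3 ^ n) ^ 2) ^ (j + 1) := by rw [mul_pow]; ring
      _ = _ := by rw [h2, one_pow, mul_one]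
  have h4 := dvd_of_castN h3
  push_cast at h4
  have h5 : (3 : ℤ) ^ (h + 1) ∣ (m : ℤ) * 3 ^ n := Dvd.dvd.mul_left (pow_dvd_pow 3 hh) _
  have h6 := dvd_trans h5 h4
  have hc : IsCoprime ((3 : ℤ) ^ h) ((4 : ℤ) ^ (j + 1)) := by
    apply IsCoprime.pow
    norm_num [Int.isCoprime_iff_gcd_eq_one]
  have h7 : (3 : ℤ) ^ h ∣ 4 ^ (j + 1) * pvN (m * 3 ^ n) ξ j h := by
    have h8 : (3 : ℤ) ^ h ∣ 4 ^ (j + 1) * pvN (m * 3 ^ n) ξ j h - (ξ.val : ℤ) * 3 ^ h := dvd_trans (pow_dvd_pow 3 (Nat.le_succ h)) h6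
    have h9 := dvd_add h8 (Dvd.intro_left (ξ.val : ℤ) rfl : (3 : ℤ) ^ h ∣ (ξ.val : ℤ) * 3 ^ h)
    simpa using h9
  have h8 := hc.dvd_of_dvd_mul_left h7
  have hne : pvN (m * 3 ^ n) ξ j h ≠ 0 := by
    intro h0
    rw [h0, mul_zero, zero_sub, dvd_neg, pow_succ, mul_comm] at h6
    apply hξ
    have h9 : (3 : ℤ) ∣ (ξ.val : ℤ) := (mul_dvd_mul_iff_right (pow_ne_zero h (by norm_num : (3 : ℤ) ≠ 0))).mp h6
    exact_mod_cast h9
  exact Int.le_of_dvd (abs_pos.mpr hne) ((dvd_abs _ _).mpr h8)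

theorem gvN_white (N : ℕ) [NeZero N] [Fact (Nat.Coprime 2 N)] (ξ : ZMod N) (j h : ℕ) (hw : ¬ bl (N : ℤ) (pvN N ξ) j h) :
    (1 + gvN N ξ j h) / 2 ≤ θ0 := by
  unfold bl at hw
  push Not at hw
  have hhalf := (arr_pvN N ξ).half j h
  have hx := pvN_cast N ξ j h
  obtain ⟨p, hp⟩ : ∃ p, p = pvN N ξ j h := ⟨_, rfl⟩
  rw [← hp] at hw hhalf hx
  obtain ⟨q, hq⟩ : ∃ q : ℝ, q = (N : ℝ) := ⟨_, rfl⟩
  have hqpos : 0 < q := by rw [hq]; exact_mod_cast Nat.pos_of_ne_zero (NeZero.ne N)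
  obtain ⟨φ, hφ⟩ : ∃ φ : ℝ, φ = 2 * Real.pi * p / q := ⟨_, rfl⟩
  have hchar : (ZMod.stdAddChar (xvN N ξ j h) : ℂ) = cexp (φ * I) := by
    rw [← hx, ZMod.stdAddChar_coe, hφ, hq]
    congr 1
    push_cast
    ring
  have hpr : |(p : ℝ)| ≤ q / 2 := by
    have : (2 : ℝ) * |(p : ℝ)| ≤ N := by exact_mod_cast hhalf
    rw [hq]; linarith
  have hpr2 : q / 100 ≤ |(p : ℝ)| := by
    have : (N : ℝ) ≤ 100 * |(p : ℝ)| := by exact_mod_cast hw
    rw [hq]; linarith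
  have hφabs : |φ| = 2 * Real.pi * |(p : ℝ)| / q := by
    rw [hφ, abs_div, abs_mul, abs_mul, abs_two, abs_of_pos Real.pi_pos, abs_of_pos hqpos]
  have h1 : Real.pi / 50 ≤ |φ| := by
    rw [hφabs, le_div_iff₀ hqpos]
    nlinarith [Real.pi_pos]
  have h2 : |φ| ≤ Real.pi := by
    rw [hφabs, div_le_iff₀ hqpos]
    nlinarith [Real.pi_pos]
  have hcos : Real.cos φ ≤ Real.cos (Real.pi / 50) := by
    rw [← Real.cos_abs φ]
    exact Real.cos_le_cos_of_nonneg_of_le_pi (by positivity) h2 h1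
  have hg : gvN N ξ j h ≤ Real.sqrt ((1 + Real.cos (Real.pi / 50)) / 2) := by
    apply Real.le_sqrt_of_sq_le
    unfold gvN
    rw [hchar, div_pow, norm_one_add_exp]
    linarith
  unfold θ0
  linarith

theorem goodN (L m n : ℕ) [NeZero m] [Fact (Nat.Coprime 2 (m * 3 ^ n))] (hL : m ≤ 4 ^ L) (ξ : ZMod (m * 3 ^ n)) (hξ : ¬ 3 ∣ ξ.val) :
    GoodL L ((m * 3 ^ n : ℕ) : ℤ) n (pvN (m * 3 ^ n) ξ) (gvN (m * 3 ^ n) ξ) θ0 where
  arr := arr_pvN (m * 3 ^ n) ξ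
  qle := by
    push_cast
    apply mul_le_mul_of_nonneg_right _ (by positivity)
    exact_mod_cast hL
  size := fun j h hh => size_pvN m n ξ hξ j h hh
  g0 := fun j h => by unfold gvN; positivity
  g1 := fun j h => by
    unfold gvN
    have : ‖1 + (ZMod.stdAddChar (xvN (m * 3 ^ n) ξ j h) : ℂ)‖ ≤ 2 := by
      refine le_trans (norm_add_le _ _) ?_
      rw [norm_one, norm_char]; norm_num
    linarith
  gw := fun j h hw => gvN_white (m * 3 ^ n) ξ j h hw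

/-- **Decay of character sums** -/
theorem XN_decay (m a : ℕ) : ∃ C : ℝ, 0 < C ∧ ∀ (n : ℕ) [NeZero m] [Fact (Nat.Coprime 2 (m * 3 ^ n))] (ξ : ZMod (m * 3 ^ n)),
    ¬ 3 ∣ ξ.val → ∀ (h M R y t k : ℕ) (S : ℝ),
    h + M = n → (y : ℝ) ≤ (M : ℝ) ^ (3 / 5 : ℝ) → M ≤ R + y → (∀ k, (t.choose k : ℝ) ≤ S) →
      ‖XN (m * 3 ^ n) (2 * R + t) (ξ * 3 ^ h) k‖ * (M : ℝ) ^ a ≤ C * (4 ^ R * S) := by
  obtain ⟨L, hL⟩ : ∃ L : ℕ, m ≤ 4 ^ L := ⟨m, (Nat.lt_pow_self (by norm_num)).le⟩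
  obtain ⟨C, hC, hC2⟩ := decayL L θ0 θ0_nonneg θ0_lt a
  refine ⟨C, hC, ?_⟩
  intro n _ _ ξ hξ h M R y t k S hM hy hR hS
  have h1 := XN_le_V (m * 3 ^ n) ξ t S hS R 0 h k
  rw [pow_zero, mul_one] at h1
  have h2 := hC2 _ n _ _ (goodN L m n hL ξ hξ) 0 h M R y hM hy hR
  have hS0 : 0 ≤ S := le_trans (by positivity) (hS 0)
  calc ‖XN (m * 3 ^ n) (2 * R + t) (ξ * 3 ^ h) k‖ * (M : ℝ) ^ a ≤ (4 ^ R * S * V (gvN (m * 3 ^ n) ξ) R 0 h) * (M : ℝ) ^ a := by gcongr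
    _ = (4 ^ R * S) * (V (gvN (m * 3 ^ n) ξ) R 0 h * (M : ℝ) ^ a) := by ring
    _ ≤ (4 ^ R * S) * C := by gcongr
    _ = _ := by ring

end Pool.Agent.Helper3.TD
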