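import Pool.Agent.Helper3.TD.Decay

/-! Decay of the weighted walk for moduli `q ≤ 4 ^ L * 3 ^ n`. -/

namespace Pool.Agent.Helper3.TD

theorem uniformL (L K : ℕ) (δ : ℝ) (hδ : 0 < δ) : ∃ M0, ∀ (q : ℤ) (n : ℕ) (p : ℕ → ℕ → ℤ), Arr q p → q ≤ 4 ^ L * 3 ^ n →
    (∀ j h, h < n → 3 ^ h ≤ |p j h|) → ∀ j h M R, h + M = n → M0 ≤ M → 17 * M ≤ 20 * R →
      U q p R K j h ≤ δ := by
  obtain ⟨T, t0, hT⟩ := klevel' K δ hδ
  refine ⟨20 * (T + L + (t0 + 1) * K + 1) + 2 * (t0 + 1) * K + 1, ?_⟩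
  intro q n p A hq hsize
  have claim : ∀ K' ≤ K, ∀ j h M R, h + M = n → 2 * (t0 + 1) * K' + 1 ≤ M →
      4 * M + 5 * (T + L + (t0 + 1) * K' + 1) ≤ 5 * R → U q p R K' j h ≤ δ := by
    intro K'
    induction K' with
    | zero => intro _ j h M R _ _ _; rw [U_K_zero]; exact hδ.le
    | succ K' ih =>
      intro hK' j h M R hM hM2 hR
      by_cases hr : run q p j h t0
      · -- long run: it ends
        have hhn : h < n := by
          have : 1 ≤ M := by omega
          omega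
        have hend : ∃ S, ¬ run q p j h S := by
          by_contra hc
          push Not at hc
          have h1 := A.run_eq (hc (p j h).natAbs) _ le_rfl
          have h2 := hsize (j + (p j h).natAbs) h hhn
          have h3 : (1 : ℤ) ≤ 3 ^ h := one_le_pow₀ (by norm_num)
          have h4 : |p j h| = 4 ^ (p j h).natAbs * |p (j + (p j h).natAbs) h| := by
            have e := congrArg abs h1
            rw [abs_mul, abs_of_pos (show (0 : ℤ) < 4 ^ (p j h).natAbs by positivity)] at e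
            exact e
          have h5 : (p j h).natAbs < 4 ^ (p j h).natAbs := Nat.lt_pow_self (by norm_num)
          have h6 : |p j h| < 4 ^ (p j h).natAbs := by
            rw [← Int.natCast_natAbs]; exact_mod_cast h5
          have h7 : (0 : ℤ) < 4 ^ (p j h).natAbs := by positivity
          nlinarith
        obtain ⟨S, hS⟩ := hend
        have hb : bl q p j h := by have := hr 0 (by omega); rwa [add_zero] at this
        obtain ⟨d, hd, E⟩ := exists_ex_of_not_run hb hS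
        have hdt : t0 ≤ d + 1 := by
          by_contra hc
          push Not at hc
          exact E.2.2 (hr (d + 1) (by omega))
        have hbound : 5 * (d + 1) < 4 * M + 5 * L := by
          by_contra hc
          push Not at hc
          obtain ⟨e, he⟩ : ∃ e, d + 1 = L + e := ⟨d + 1 - L, by omega⟩
          have h1 : 3 ^ M ≤ 4 ^ e := three_four (by omega)
          have h2 := A.run_eq E.run d (by omega)
          have h3 := hsize (j + d) h hhn
          have h4 : |p j h| = 4 ^ d * |p (j + d) h| := by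
            rw [h2, abs_mul, abs_of_pos (show (0 : ℤ) < 4 ^ d by positivity)]
          unfold bl at hb
          rw [h4] at hb
          have h5 : (4 : ℤ) ^ d * 3 ^ h ≤ 4 ^ d * |p (j + d) h| := mul_le_mul_of_nonneg_left h3 (by positivity)
          have h6 : (3 : ℤ) ^ n = 3 ^ M * 3 ^ h := by rw [← hM, pow_add]; ring
          have h7 : (3 : ℤ) ^ M ≤ 4 ^ e := by exact_mod_cast h1
          have h8 : (4 : ℤ) ^ L * (3 ^ M * 3 ^ h) ≤ 4 ^ L * (4 ^ e * 3 ^ h) :=
            mul_le_mul_of_nonneg_left (mul_le_mul_of_nonneg_right h7 (by positivity)) (by positivity)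
          have h10 : (4 : ℤ) ^ L * (4 ^ e * 3 ^ h) = 4 * (4 ^ d * 3 ^ h) := by
            have : (4 : ℤ) ^ L * 4 ^ e = 4 * 4 ^ d := by rw [← pow_add, ← he, pow_succ]; ring
            rw [← mul_assoc, this]; ring
          have h9 : (0 : ℤ) < 4 ^ d * 3 ^ h := by positivity
          rw [h6] at hq
          linarith
        obtain ⟨R', hR'⟩ : ∃ R', R = (d + 1) + T + R' := ⟨R - ((d + 1) + T), by omega⟩
        refine le_trans (U_mono_K hK' R j h) ?_
        rw [hR']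
        exact hT (d + 1) hdt _ _ A j h E R'
      · -- gain
        have hmul : (t0 + 1) * (K' + 1) = (t0 + 1) * K' + (t0 + 1) := by ring
        have hmul2 : 2 * (t0 + 1) * (K' + 1) = 2 * (t0 + 1) * K' + 2 * (t0 + 1) := by ring
        rw [hmul] at hR
        rw [hmul2] at hM2
        obtain ⟨R', hR'⟩ : ∃ R', R = (t0 + 1) + R' := ⟨R - (t0 + 1), by omega⟩
        rw [hR']
        refine le_trans (U_gain A hr (t0 + 1) le_rfl R' K') ?_
        have : W (t0 + 1) (U q p R' K' (j + (t0 + 1))) h ≤ W (t0 + 1) (fun _ => δ) h := by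
          apply W_mono_on
          intro h' h1 h2
          obtain ⟨M', hM'⟩ : ∃ M', h' + M' = n := ⟨n - h', by omega⟩
          exact ih (by omega) (j + (t0 + 1)) h' M' R' hM' (by omega) (by omega)
        rwa [W_const] at this
  intro j h M R hM hM0 hR
  apply claim K le_rfl j h M R hM (by omega)
  omega

/-- data for the decay theorem -/
structure GoodL (L : ℕ) (q : ℤ) (n : ℕ) (p : ℕ → ℕ → ℤ) (g : ℕ → ℕ → ℝ) (θ : ℝ) : Prop where
  arr : Arr q p
  qle : q ≤ 4 ^ L * 3 ^ n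
  size : ∀ j h, h < n → 3 ^ h ≤ |p j h|
  g0 : ∀ j h, 0 ≤ g j h
  g1 : ∀ j h, g j h ≤ 1
  gw : ∀ j h, ¬ bl q p j h → (1 + g j h) / 2 ≤ θ

theorem small_VL (L : ℕ) (θ : ℝ) (hθ0 : 0 ≤ θ) (hθ1 : θ < 1) (κ : ℝ) (hκ : 0 < κ) : ∃ M0, ∀ (q : ℤ) (n : ℕ) (p : ℕ → ℕ → ℤ)
    (g : ℕ → ℕ → ℝ), GoodL L q n p g θ → ∀ j h M R, h + M = n → M0 ≤ M → 17 * M ≤ 20 * R → V g R j h ≤ κ := by
  obtain ⟨K, hK⟩ := exists_pow_lt_of_lt_one (show 0 < κ / 2 by linarith) hθ1
  obtain ⟨M0, hM0⟩ := uniformL L K (κ / 2) (by linarith)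
  refine ⟨M0, ?_⟩
  intro q n p g G j h M R h1 h2 h3
  have a1 := V_le_U (q := q) (p := p) G.g0 G.g1 hθ0 hθ1.le G.gw R K j h
  have a2 := hM0 q n p G.arr G.qle G.size j h M R h1 h2 h3
  linarith

theorem iterate_VL (L : ℕ) (θ : ℝ) (hθ0 : 0 ≤ θ) (hθ1 : θ < 1) (κ : ℝ) (hκ : 0 < κ) (hκ1 : κ ≤ 1) : ∃ M0 : ℕ, ∀ (q : ℤ) (n : ℕ) (p : ℕ → ℕ → ℤ)
    (g : ℕ → ℕ → ℝ), GoodL L q n p g θ → ∀ k j h M R x y, h + M = n → 10 ^ k * (10 * (y + k * x) + M0) ≤ M → M ≤ R + y →
      V g R j h ≤ κ ^ k + 2 * k * Real.exp (-((x : ℝ) ^ 2 / M)) := by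
  obtain ⟨M1, hM1⟩ := small_VL L θ hθ0 hθ1 κ hκ
  refine ⟨max M1 24, ?_⟩
  intro q n p g G k
  induction k with
  | zero =>
    intro j h M R x y _ _ _
    simpa using V_le_one G.g0 G.g1 R j h
  | succ k ih =>
    intro j h M R x y hM hk hR
    obtain ⟨m0, hm0⟩ : ∃ m0, m0 = max M1 24 := ⟨_, rfl⟩
    rw [← hm0] at ih hk
    have hm24 : 24 ≤ m0 := by rw [hm0]; exact le_max_right _ _
    have hmM1 : M1 ≤ m0 := by rw [hm0]; exact le_max_left _ _
    obtain ⟨Q, hQ⟩ : ∃ Q, Q = 10 ^ k * (10 * (y + (k + 1) * x) + m0) := ⟨_, rfl⟩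
    have hk' : 10 * Q ≤ M := by
      rw [hQ]
      calc 10 * (10 ^ k * (10 * (y + (k + 1) * x) + m0)) = 10 ^ (k + 1) * (10 * (y + (k + 1) * x) + m0) := by
            rw [pow_succ]; ring
        _ ≤ M := hk
    have hpk : 1 ≤ 10 ^ k := Nat.one_le_pow _ _ (by norm_num)
    have hQ1 : 10 * (y + (k + 1) * x) + m0 ≤ Q := by rw [hQ]; exact Nat.le_mul_of_pos_left _ (by omega)
    have hkx : x ≤ (k + 1) * x := Nat.le_mul_of_pos_left _ (by omega)
    obtain ⟨Ra, hRa⟩ : ∃ Ra, Ra = (17 * M + 19) / 20 := ⟨_, rfl⟩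
    have hRa1 : 17 * M ≤ 20 * Ra := by omega
    have hRa2 : 20 * Ra ≤ 17 * M + 19 := by omega
    have hx100 : 100 * x ≤ M := by
      have : 10 * (y + (k + 1) * x) ≤ Q := by omega
      nlinarith
    have hy100 : 100 * y ≤ M := by
      have : 10 * (y + (k + 1) * x) ≤ Q := by omega
      nlinarith
    have hMbig : 240 ≤ M := by omega
    obtain ⟨R', hR'⟩ : ∃ R', R = Ra + R' := ⟨R - Ra, by omega⟩
    have hRaM : Ra ≤ M := by omega
    obtain ⟨e, he⟩ : ∃ e, e = Real.exp (-((x : ℝ) ^ 2 / M)) := ⟨_, rfl⟩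
    have he0 : 0 < e := by rw [he]; exact Real.exp_pos _
    have hM' : (0 : ℝ) < M := by have : 0 < M := by omega
                                 exact_mod_cast this
    rw [← he]
    let B : ℕ → Prop := fun h' => ¬ ((h : ℝ) + Ra - x < h' ∧ (h' : ℝ) < h + Ra + x)
    have hV1 : V g Ra j h ≤ κ := hM1 q n p g G j h M Ra hM (by omega) hRa1
    have hst := V_stage G.g0 G.g1 B (s := κ ^ k + 2 * k * e) (by positivity) R' Ra j h ?_
    · have htail : W Ra (ind B) h ≤ 2 * e := by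
        have h1 := tail Ra (by omega) x (by positivity) h (ind B) (fun h' => by
          unfold ind
          by_cases hc : (h : ℝ) + Ra - x < h' ∧ (h' : ℝ) < h + Ra + x
          · rw [if_neg (by simpa [B] using hc), if_pos hc]
          · rw [if_pos (by simpa [B] using hc), if_neg hc])
        refine le_trans h1 ?_
        rw [he]
        have hRapos : (0 : ℝ) < Ra := by have : 0 < Ra := by omega
                                         exact_mod_cast this
        have hRaM' : (Ra : ℝ) ≤ M := by exact_mod_cast hRaM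
        have : (x : ℝ) ^ 2 / M ≤ (x : ℝ) ^ 2 / Ra := div_le_div_of_nonneg_left (by positivity) hRapos hRaM'
        have := Real.exp_le_exp.mpr (neg_le_neg this)
        linarith
      rw [hR']
      refine le_trans hst ?_
      have hs0 : 0 ≤ κ ^ k + 2 * k * e := by positivity
      have h2 : (κ ^ k + 2 * k * e) * V g Ra j h ≤ (κ ^ k + 2 * k * e) * κ := mul_le_mul_of_nonneg_left hV1 hs0
      have h3 : 2 * k * e * κ ≤ 2 * k * e := by
        have : 0 ≤ 2 * k * e := by positivity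
        nlinarith
      rw [pow_succ]
      push_cast
      linarith
    · intro h' hB
      have hB' : (h : ℝ) + Ra - x < h' ∧ (h' : ℝ) < h + Ra + x := by
        simpa [B] using hB
      obtain ⟨b1, b2⟩ := hB'
      have b1' : h + Ra < h' + x := by
        have : (h : ℝ) + Ra < h' + x := by linarith
        exact_mod_cast this
      have b2' : h' < h + Ra + x := by exact_mod_cast b2
      obtain ⟨M', hM2⟩ : ∃ M', h' + M' = n := ⟨n - h', by omega⟩
      have hMM : M' ≤ M := by omega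
      have hM10 : M ≤ 10 * M' := by omega
      have h1 := ih (j + Ra) h' M' R' x (y + x) hM2 (by
        have e1 : y + x + k * x = y + (k + 1) * x := by ring
        rw [e1, ← hQ]
        omega) (by omega)
      refine le_trans h1 ?_
      have hM'pos : (0 : ℝ) < M' := by have : 0 < M' := by omega
                                       exact_mod_cast this
      have h2 : Real.exp (-((x : ℝ) ^ 2 / M')) ≤ e := by
        rw [he]
        apply Real.exp_le_exp.mpr
        apply neg_le_neg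
        apply div_le_div_of_nonneg_left (by positivity) hM'pos
        exact_mod_cast hMM
      gcongr

/-- **Polynomial decay of every order** -/
theorem decayL (L : ℕ) (θ : ℝ) (hθ0 : 0 ≤ θ) (hθ1 : θ < 1) (a : ℕ) : ∃ C : ℝ, 0 < C ∧ ∀ (q : ℤ) (n : ℕ) (p : ℕ → ℕ → ℤ)
    (g : ℕ → ℕ → ℝ), GoodL L q n p g θ → ∀ j h M R y : ℕ, h + M = n → (y : ℝ) ≤ (M : ℝ) ^ (3 / 5 : ℝ) → M ≤ R + y →
      V g R j h * (M : ℝ) ^ a ≤ C := by
  obtain ⟨M0, hM0⟩ := iterate_VL L θ hθ0 hθ1 (1 / 10 ^ (8 * (a + 1))) (by positivity) (by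
    rw [div_le_one (by positivity)]
    exact one_le_pow₀ (by norm_num))
  obtain ⟨k1, hk1⟩ : ∃ k1 : ℕ, k1 = max M0 24 := ⟨_, rfl⟩
  obtain ⟨m, hm⟩ : ∃ m, m = 8 * a + 1 := ⟨_, rfl⟩
  refine ⟨((10 : ℝ) ^ 8) ^ (k1 * a) + ((10 : ℝ) ^ (8 * a) + 2 * 10 ^ (8 * a) * (m.factorial * (10 ^ 8) ^ m)), by positivity, ?_⟩
  intro q n p g G j h M R y hM hy hR
  have hV0 := V_nonneg G.g0 R j h
  have hV1 := V_le_one G.g0 G.g1 R j h
  by_cases hsmall : M < (10 ^ 8) ^ k1
  · have h1 : (M : ℝ) ^ a ≤ ((10 : ℝ) ^ 8) ^ (k1 * a) := by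
      rw [pow_mul]
      apply pow_le_pow_left₀ (by positivity)
      exact_mod_cast hsmall.le
    have h2 : V g R j h * (M : ℝ) ^ a ≤ 1 * ((10 : ℝ) ^ 8) ^ (k1 * a) := by
      apply mul_le_mul hV1 h1 (by positivity) (by norm_num)
    have h3 : 0 ≤ ((10 : ℝ) ^ (8 * a) + 2 * 10 ^ (8 * a) * (m.factorial * (10 ^ 8) ^ m)) := by positivity
    linarith
  · push Not at hsmall
    have hMne : M ≠ 0 := by
      have : 0 < (10 ^ 8) ^ k1 := by positivity
      omega
    obtain ⟨k, hk⟩ : ∃ k, k = Nat.log (10 ^ 8) M := ⟨_, rfl⟩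
    have hk2 : (10 ^ 8) ^ k ≤ M := by rw [hk]; exact Nat.pow_log_le_self _ hMne
    have hk3 : M < (10 ^ 8) ^ (k + 1) := by rw [hk]; exact Nat.lt_pow_succ_log_self (by norm_num) M
    have hkk1 : k1 ≤ k := by
      by_contra hc
      push Not at hc
      have : (10 ^ 8) ^ (k + 1) ≤ (10 ^ 8) ^ k1 := Nat.pow_le_pow_right (by norm_num) hc
      omega
    have hk24 : 24 ≤ k := le_trans (by rw [hk1]; exact le_max_right _ _) hkk1
    have hkM0 : M0 ≤ k := le_trans (by rw [hk1]; exact le_max_left _ _) hkk1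
    obtain ⟨N, hN⟩ : ∃ N : ℕ, N = 10 ^ k := ⟨_, rfl⟩
    have hkN : k < N := by rw [hN]; exact Nat.lt_pow_self (by norm_num)
    have hM8 : N ^ 8 ≤ M := by
      rw [hN, ← pow_mul, mul_comm k 8, pow_mul]; exact hk2
    have hMup : M < 10 ^ 8 * N ^ 8 := by
      rw [hN, ← pow_mul, mul_comm k 8, pow_mul, ← pow_succ']; exact hk3
    have hN24 : 10 ^ 24 ≤ N := by rw [hN]; exact Nat.pow_le_pow_right (by norm_num) hk24
    -- y ≤ N^5
    have hy5 : y ≤ N ^ 5 := by
      have h1 : (y : ℝ) ^ 5 ≤ (M : ℝ) ^ 3 := by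
        calc (y : ℝ) ^ 5 ≤ ((M : ℝ) ^ (3 / 5 : ℝ)) ^ 5 := by gcongr
          _ = (M : ℝ) ^ 3 := by
              rw [← Real.rpow_natCast, ← Real.rpow_mul (by positivity)]
              norm_num
      have h2 : y ^ 5 ≤ M ^ 3 := by exact_mod_cast h1
      have h3 : y ^ 5 ≤ (N ^ 5) ^ 5 := by
        calc y ^ 5 ≤ M ^ 3 := h2
          _ ≤ (10 ^ 8 * N ^ 8) ^ 3 := Nat.pow_le_pow_left hMup.le 3
          _ = 10 ^ 24 * N ^ 24 := by ring
          _ ≤ N * N ^ 24 := Nat.mul_le_mul_right _ hN24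
          _ = (N ^ 5) ^ 5 := by ring
      exact le_of_not_gt fun hc => by
        have := Nat.pow_lt_pow_left hc (show 5 ≠ 0 by norm_num)
        omega
    have hcond : 10 ^ k * (10 * (y + k * N ^ 5) + M0) ≤ M := by
      rw [← hN]
      have hNpos : 1 ≤ N := by omega
      have a1 : 10 * (y + k * N ^ 5) + M0 ≤ 30 * N ^ 6 := by
        have b1 : k * N ^ 5 ≤ N * N ^ 5 := Nat.mul_le_mul_right _ hkN.le
        have b2 : N ^ 5 ≤ N * N ^ 5 := Nat.le_mul_of_pos_left _ hNpos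
        have b3 : N ≤ N * N ^ 5 := Nat.le_mul_of_pos_right _ (by positivity)
        have b4 : N * N ^ 5 = N ^ 6 := by ring
        omega
      calc N * (10 * (y + k * N ^ 5) + M0) ≤ N * (30 * N ^ 6) := Nat.mul_le_mul_left _ a1
        _ = 30 * N ^ 7 := by ring
        _ ≤ N * N ^ 7 := Nat.mul_le_mul_right _ (by omega)
        _ = N ^ 8 := by ring
        _ ≤ M := hM8
    have hmain := hM0 q n p g G k j h M R (N ^ 5) y hM hcond hR
    have hNr : (1 : ℝ) ≤ N := by
      have : 1 ≤ N := by omega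
      exact_mod_cast this
    have hMr : (M : ℝ) ≤ 10 ^ 8 * N ^ 8 := by exact_mod_cast hMup.le
    have hMpos : (0 : ℝ) < M := by have : 0 < M := by omega
                                   exact_mod_cast this
    have hMa : (M : ℝ) ^ a ≤ 10 ^ (8 * a) * N ^ (8 * a) := by
      calc (M : ℝ) ^ a ≤ (10 ^ 8 * N ^ 8) ^ a := by gcongr
        _ = _ := by rw [mul_pow, ← pow_mul, ← pow_mul]
    have c1 : (1 / 10 ^ (8 * (a + 1)) : ℝ) ^ k * (M : ℝ) ^ a ≤ 10 ^ (8 * a) := by
      have d1 : (1 / 10 ^ (8 * (a + 1)) : ℝ) ^ k = 1 / N ^ (8 * (a + 1)) := by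
        rw [one_div_pow, hN]
        push_cast
        rw [← pow_mul, ← pow_mul, mul_comm]
      rw [d1, one_div_mul_eq_div, div_le_iff₀ (by positivity)]
      calc (M : ℝ) ^ a ≤ 10 ^ (8 * a) * N ^ (8 * a) := hMa
        _ ≤ 10 ^ (8 * a) * N ^ (8 * (a + 1)) :=
            mul_le_mul_of_nonneg_left (pow_le_pow_right₀ hNr (by omega)) (by positivity)
    have c2 : 2 * (k : ℝ) * Real.exp (-(((N ^ 5 : ℕ) : ℝ) ^ 2 / M)) * (M : ℝ) ^ a ≤
        2 * 10 ^ (8 * a) * (m.factorial * (10 ^ 8) ^ m) := by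
      have d1 : (N : ℝ) / 10 ^ 8 ≤ ((N ^ 5 : ℕ) : ℝ) ^ 2 / M := by
        rw [div_le_div_iff₀ (by positivity) hMpos]
        calc (N : ℝ) * M ≤ N * (10 ^ 8 * N ^ 8) := by gcongr
          _ = 10 ^ 8 * N ^ 9 := by ring
          _ ≤ 10 ^ 8 * N ^ 10 :=
              mul_le_mul_of_nonneg_left (pow_le_pow_right₀ hNr (by norm_num)) (by positivity)
          _ = _ := by push_cast; ring
      have d2 : Real.exp (-(((N ^ 5 : ℕ) : ℝ) ^ 2 / M)) ≤ Real.exp (-((N : ℝ) / 10 ^ 8)) :=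
        Real.exp_le_exp.mpr (neg_le_neg d1)
      have d3 : Real.exp (-((N : ℝ) / 10 ^ 8)) * N ^ m ≤ m.factorial * (10 ^ 8) ^ m := by
        have e1 := Real.pow_div_factorial_le_exp ((N : ℝ) / 10 ^ 8) (by positivity) m
        rw [div_le_iff₀ (by positivity), div_pow, div_le_iff₀ (by positivity)] at e1
        rw [Real.exp_neg, inv_mul_le_iff₀ (Real.exp_pos _)]
        linarith
      have hkr : (k : ℝ) ≤ N := by exact_mod_cast hkN.le
      calc 2 * (k : ℝ) * Real.exp (-(((N ^ 5 : ℕ) : ℝ) ^ 2 / M)) * (M : ℝ) ^ a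
          ≤ 2 * N * Real.exp (-((N : ℝ) / 10 ^ 8)) * (10 ^ (8 * a) * N ^ (8 * a)) := by gcongr
        _ = 2 * 10 ^ (8 * a) * (Real.exp (-((N : ℝ) / 10 ^ 8)) * N ^ m) := by rw [hm, pow_succ]; ring
        _ ≤ _ := by gcongr
    have hfin : V g R j h * (M : ℝ) ^ a ≤
        ((1 / 10 ^ (8 * (a + 1)) : ℝ) ^ k + 2 * k * Real.exp (-(((N ^ 5 : ℕ) : ℝ) ^ 2 / M))) * (M : ℝ) ^ a :=
      mul_le_mul_of_nonneg_right hmain (by positivity)
    rw [add_mul] at hfin
    have h0 : (0 : ℝ) ≤ ((10 : ℝ) ^ 8) ^ (k1 * a) := by positivity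
    exact le_trans hfin (le_trans (add_le_add c1 c2) (le_add_of_nonneg_left h0))

end Pool.Agent.Helper3.TD
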