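import Pool.Agent.Helper3.EQ.FineN
import Pool.Agent.Helper3.TD.NatE

/-! Natural densities in residue classes. -/

namespace Pool.Agent.Helper3.TD

open Pool.Agent.Helper3.ND Filter Topology

/-- natural density from the limits of the narrow logarithmic sums -/
theorem nat_dens_ofN {Φ : ℤ → ℝ} (hΦ0 : ∀ N, 0 ≤ Φ N) (hΦ1 : ∀ N, Φ N ≤ 1) {c : ℝ}
    (hc : ∀ l : ℕ, Tendsto (fun a => Gs Φ ((1 / 2) ^ l) a) atTop (𝓝 (c * (1 / 2) ^ l))) :
    Tendsto (fun X : ℕ => Nc Φ X / X) atTop (𝓝 c) := by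
  have hc0 : 0 ≤ c := by
    have h1 := hc 0
    simp only [pow_zero, mul_one] at h1
    exact ge_of_tendsto' h1 (fun a => Gs_nonneg hΦ0 _ _)
  -- the parameters
  have hd : Tendsto (fun l : ℕ => ((1 : ℝ) / 2) ^ l) atTop (𝓝 0) :=
    tendsto_pow_atTop_nhds_zero_of_lt_one (by norm_num) (by norm_num)
  have he : Tendsto (fun l : ℕ => Real.exp (-(l : ℝ))) atTop (𝓝 0) :=
    Real.tendsto_exp_neg_atTop_nhds_zero.comp tendsto_natCast_atTop_atTop
  have hU : Tendsto (fun l : ℕ => c * (Real.exp ((1 / 2) ^ l) * (1 + (1 / 2) ^ l)) + 2 * Real.exp (-(l : ℝ))) atTop (𝓝 c) := by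
    have h1 : Tendsto (fun l : ℕ => Real.exp (((1 : ℝ) / 2) ^ l)) atTop (𝓝 (Real.exp 0)) := (Real.continuous_exp.tendsto 0).comp hd
    have h2 := ((h1.mul (hd.const_add 1)).const_mul c).add (he.const_mul 2)
    rw [Real.exp_zero] at h2
    simpa using h2
  have hL : Tendsto (fun l : ℕ => c * (Real.exp (-(2 * (1 / 2) ^ l)) * (1 - Real.exp (-(l : ℝ))))) atTop (𝓝 c) := by
    have h0 : Tendsto (fun l : ℕ => -(2 * ((1 : ℝ) / 2) ^ l)) atTop (𝓝 0) := by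
      have := (hd.const_mul 2).neg
      simpa using this
    have h1 : Tendsto (fun l : ℕ => Real.exp (-(2 * ((1 : ℝ) / 2) ^ l))) atTop (𝓝 (Real.exp 0)) := (Real.continuous_exp.tendsto 0).comp h0
    have h2 := (h1.mul (he.const_sub 1)).const_mul c
    rw [Real.exp_zero] at h2
    simpa using h2
  -- behaviour for fixed `l`
  have hG : ∀ (l : ℕ) (x : ℝ), Tendsto (fun X : ℕ => Gs Φ ((1 / 2) ^ l) (Real.log X - x)) atTop (𝓝 (c * (1 / 2) ^ l)) := by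
    intro l x
    have h1 : Tendsto (fun X : ℕ => Real.log (X : ℝ) - x) atTop atTop :=
      tendsto_atTop_add_const_right atTop (-x) (Real.tendsto_log_atTop.comp tendsto_natCast_atTop_atTop)
    exact (hc l).comp h1
  have hinv : Tendsto (fun X : ℕ => (1 : ℝ) / X) atTop (𝓝 0) := tendsto_one_div_atTop_nhds_zero_nat
  rw [tendsto_order]
  constructor
  · intro a ha
    obtain ⟨l, hl⟩ := ((tendsto_order.1 hL).1 a ha).exists
    obtain ⟨δ, hδ⟩ : ∃ δ : ℝ, δ = (1 / 2) ^ l := ⟨_, rfl⟩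
    have hδ0 : 0 < δ := by rw [hδ]; positivity
    obtain ⟨K, hK⟩ : ∃ K : ℕ, K = l * 2 ^ l := ⟨_, rfl⟩
    have hKδ : (K : ℝ) * δ = l := by
      rw [hK, hδ, one_div_pow]; push_cast; field_simp
    have h1 : Tendsto (fun X : ℕ => ∑ i ∈ Finset.range K, Real.exp (-(((i : ℕ) + 1) * δ) - δ) * Gs Φ δ (Real.log X - ((i : ℕ) + 1) * δ)) atTop
        (𝓝 (∑ i ∈ Finset.range K, Real.exp (-(((i : ℕ) + 1) * δ) - δ) * (c * δ))) := by
      apply tendsto_finsetSum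
      intro i _
      apply Tendsto.const_mul
      have := hG l (((i : ℕ) + 1) * δ)
      rw [← hδ] at this
      exact this
    have h2 : a < ∑ i ∈ Finset.range K, Real.exp (-(((i : ℕ) + 1) * δ) - δ) * (c * δ) := by
      rw [← hδ] at hl
      refine lt_of_lt_of_le hl ?_
      have e : ∑ i ∈ Finset.range K, Real.exp (-(((i : ℕ) + 1) * δ) - δ) * (c * δ) =
          c * Real.exp (-(2 * δ)) * (δ * ∑ i ∈ Finset.range K, Real.exp (-(i * δ))) := by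
        rw [Finset.mul_sum, Finset.mul_sum]
        apply Finset.sum_congr rfl
        intro i _
        rw [show -(((i : ℕ) + 1) * δ) - δ = -(2 * δ) + -(i * δ) by ring, Real.exp_add]
        ring
      rw [e]
      have h3 := geo_lower hδ0 K
      rw [hKδ, div_le_iff₀ hδ0] at h3
      calc c * (Real.exp (-(2 * δ)) * (1 - Real.exp (-(l : ℝ)))) = c * Real.exp (-(2 * δ)) * (1 - Real.exp (-(l : ℝ))) := by ring
        _ ≤ c * Real.exp (-(2 * δ)) * (δ * ∑ i ∈ Finset.range K, Real.exp (-(i * δ))) := by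
            apply mul_le_mul_of_nonneg_left _ (by positivity)
            linarith
    filter_upwards [(tendsto_order.1 h1).1 a h2, eventually_ge_atTop 1] with X hX hX1
    have h4 := Nc_lower hΦ0 hδ0 K hX1
    have hX0 : (0 : ℝ) < X := by exact_mod_cast hX1
    rw [lt_div_iff₀ hX0]
    calc a * X < (∑ i ∈ Finset.range K, Real.exp (-(((i : ℕ) + 1) * δ) - δ) * Gs Φ δ (Real.log X - ((i : ℕ) + 1) * δ)) * X :=
          mul_lt_mul_of_pos_right hX hX0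
      _ = X * ∑ i ∈ Finset.range K, Real.exp (-(((i : ℕ) + 1) * δ) - δ) * Gs Φ δ (Real.log X - ((i : ℕ) + 1) * δ) := mul_comm _ _
      _ ≤ _ := h4
  · intro a ha
    obtain ⟨l, hl⟩ := ((tendsto_order.1 hU).2 a ha).exists
    obtain ⟨δ, hδ⟩ : ∃ δ : ℝ, δ = (1 / 2) ^ l := ⟨_, rfl⟩
    have hδ0 : 0 < δ := by rw [hδ]; positivity
    obtain ⟨K, hK⟩ : ∃ K : ℕ, K = l * 2 ^ l := ⟨_, rfl⟩
    have hKδ : (K : ℝ) * δ = l := by
      rw [hK, hδ, one_div_pow]; push_cast; field_simp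
    have h1 : Tendsto (fun X : ℕ => ∑ i ∈ Finset.range (K + 1), Real.exp (-((i : ℕ) * δ) + δ) * Gs Φ δ (Real.log X - (i : ℕ) * δ)) atTop
        (𝓝 (∑ i ∈ Finset.range (K + 1), Real.exp (-((i : ℕ) * δ) + δ) * (c * δ))) := by
      apply tendsto_finsetSum
      intro i _
      apply Tendsto.const_mul
      have := hG l ((i : ℕ) * δ)
      rw [← hδ] at this
      exact this
    have h2 : Tendsto (fun X : ℕ => ∑ i ∈ Finset.range (K + 1), Real.exp (-((i : ℕ) * δ) + δ) * Gs Φ δ (Real.log X - (i : ℕ) * δ) +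
        (2 * Real.exp (-(l : ℝ)) + (1 : ℝ) / X)) atTop
        (𝓝 (∑ i ∈ Finset.range (K + 1), Real.exp (-((i : ℕ) * δ) + δ) * (c * δ) + (2 * Real.exp (-(l : ℝ)) + 0))) :=
      h1.add (hinv.const_add _)
    have h3 : ∑ i ∈ Finset.range (K + 1), Real.exp (-((i : ℕ) * δ) + δ) * (c * δ) + (2 * Real.exp (-(l : ℝ)) + 0) < a := by
      rw [← hδ] at hl
      refine lt_of_le_of_lt ?_ hl
      have e : ∑ i ∈ Finset.range (K + 1), Real.exp (-((i : ℕ) * δ) + δ) * (c * δ) =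
          c * Real.exp δ * (δ * ∑ i ∈ Finset.range (K + 1), Real.exp (-(i * δ))) := by
        rw [Finset.mul_sum, Finset.mul_sum]
        apply Finset.sum_congr rfl
        intro i _
        rw [Real.exp_add]
        ring
      rw [e, add_zero]
      have h4 := geo_upper hδ0 (K + 1)
      rw [le_div_iff₀ hδ0] at h4
      have h5 : c * Real.exp δ * (δ * ∑ i ∈ Finset.range (K + 1), Real.exp (-(i * δ))) ≤ c * Real.exp δ * (1 + δ) := by
        apply mul_le_mul_of_nonneg_left _ (by positivity)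
        linarith
      linarith
    filter_upwards [(tendsto_order.1 h2).2 a h3, eventually_ge_atTop 1] with X hX hX1
    have h4 := Nc_upper hΦ0 hΦ1 hδ0 K hX1
    have hX0 : (0 : ℝ) < X := by exact_mod_cast hX1
    rw [hKδ] at h4
    rw [div_lt_iff₀ hX0]
    refine lt_of_le_of_lt h4 ?_
    have h5 := mul_lt_mul_of_pos_right hX hX0
    refine lt_of_eq_of_lt ?_ h5
    obtain ⟨S, hS⟩ : ∃ S, S = ∑ i ∈ Finset.range (K + 1), Real.exp (-((i : ℕ) * δ) + δ) * Gs Φ δ (Real.log X - (i : ℕ) * δ) := ⟨_, rfl⟩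
    rw [← hS]
    field_simp


theorem Gq_eq_D (t k : ℕ) (M c : ℤ) : Gq (3 ^ k) t k c (fun _ => True) M = D k t k (fun _ => True) M := by
  classical
  unfold Gq D
  apply Finset.sum_congr rfl
  intro r _
  have h := class_iff t r M c 1
  by_cases h1 : od t (r : ℤ) = k
  · rw [h1, mul_one] at h
    by_cases h2 : (3 : ℤ) ^ k ∣ M - T^[t] (r : ℤ)
    · rw [if_pos ⟨h1, trivial, h.mp ⟨h2, by simp⟩⟩, if_pos ⟨h1, trivial, h2⟩]
      push_cast
      rfl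
    · rw [if_neg (fun h3 => h2 (h.mpr h3.2.2).1), if_neg (fun h3 => h2 h3.2.2)]
  · rw [if_neg (fun h3 => h1 h3.1), if_neg (fun h3 => h1 h3.1)]

theorem class_SS {Φ : ℤ → ℝ} (hΦ0 : ∀ N, 0 ≤ Φ N) (hΦ1 : ∀ N, Φ N ≤ 1) {t m : ℕ} (ht : 10 ^ 3 ≤ t) (hm : 5 * m ≤ 2 * t)
    {a W : ℝ} (hW0 : 0 < W) (hW1 : W ≤ 1) (B : ℕ) (hB : 0 < B) (hz : 16 * 10 ^ t * B ≤ W * Real.exp (a - W))
    (hq : 4 * (2 : ℝ) ^ t ≤ Real.exp (a - W)) (X : ℤ) (hX : 2 ^ t * Real.exp (a + W) ≤ X)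
    (hinv : ∀ N : ℤ, Real.exp (a - W) < |(N : ℝ)| → Φ (T^[t] N) = Φ N) (c : ℤ) :
    |SS (fun N => Φ N * ic B c N) X a W - SS Φ X a W / B| ≤
      2 * (4 * Real.exp (-((t : ℝ) ^ (1 / 10 : ℝ))) * (2 * W + 1)) + 2 * (10 * (1 / 5) ^ t) +
      6 * ∑ k ∈ KS t m, AvQ (3 ^ k * B) (fun M => |Gq (3 ^ k * B) t k c (fun _ => True) M - Gq (3 ^ k) t k c (fun _ => True) M|) := by
  have hB' : (1 : ℝ) ≤ B := by exact_mod_cast hB
  have hBpos : (0 : ℝ) < B := by linarith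
  have hz0 : 16 * 10 ^ t ≤ W * Real.exp (a - W) := by
    refine le_trans ?_ hz
    have : (0 : ℝ) < 16 * 10 ^ t := by positivity
    nlinarith
  have b1 := finAN hΦ0 hΦ1 ht hm hW0 hq X hinv B c
  have b2 := finBN (m := m) hΦ0 hΦ1 hW0 hW1 hz0 X hX B hB c
  have b3 := finDN (m := m) hΦ0 hΦ1 hW0 hW1 B hB hz X c
  have b4 := fineA hΦ0 hΦ1 ht hm hW0 hq X hinv
  have b5 := fineB (m := m) hΦ0 hΦ1 hW0 hW1 hz0 X hX
  have e1 : ∑ M ∈ Finset.Icc (-X) X, Φ M * ∑ k ∈ KS t m, Gq (3 ^ k) t k c (fun _ => True) M * om (bk a t k) W M =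
      ∑ M ∈ Finset.Icc (-X) X, Φ M * ∑ k ∈ KS t m, D k t k (fun _ => True) M * om (bk a t k) W M := by
    apply Finset.sum_congr rfl
    intro M _
    congr 1
    apply Finset.sum_congr rfl
    intro k _
    rw [Gq_eq_D]
  rw [e1] at b3
  obtain ⟨S1, hS1⟩ : ∃ S1, S1 = SS (fun N => Φ N * ic B c N) X a W := ⟨_, rfl⟩
  obtain ⟨S2, hS2⟩ : ∃ S2, S2 = ∑ N ∈ Finset.Icc (-X) X, (if od t N ∈ KS t m then Φ (T^[t] N) * (om a W N * ic B c N) else 0) := ⟨_, rfl⟩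
  obtain ⟨S3, hS3⟩ : ∃ S3, S3 = ∑ M ∈ Finset.Icc (-X) X, Φ M * ∑ k ∈ KS t m, Gq (3 ^ k * B) t k c (fun _ => True) M / B * om (bk a t k) W M := ⟨_, rfl⟩
  obtain ⟨S4, hS4⟩ : ∃ S4, S4 = ∑ M ∈ Finset.Icc (-X) X, Φ M * ∑ k ∈ KS t m, D k t k (fun _ => True) M * om (bk a t k) W M := ⟨_, rfl⟩
  obtain ⟨S5, hS5⟩ : ∃ S5, S5 = ∑ N ∈ Finset.Icc (-X) X, (if od t N ∈ KS t m then Φ (T^[t] N) * om a W N else 0) := ⟨_, rfl⟩
  obtain ⟨S6, hS6⟩ : ∃ S6, S6 = SS Φ X a W := ⟨_, rfl⟩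
  rw [← hS1, ← hS2] at b1
  rw [← hS2, ← hS3] at b2
  rw [← hS3, ← hS4] at b3
  rw [← hS6, ← hS5] at b4
  rw [← hS5, ← hS4] at b5
  rw [← hS1, ← hS6]
  have c1 : |S6 / B - S4 / B| ≤ 4 * Real.exp (-((t : ℝ) ^ (1 / 10 : ℝ))) * (2 * W + 1) + 10 * (1 / 5) ^ t := by
    rw [← sub_div, abs_div, abs_of_pos hBpos]
    refine le_trans (div_le_self (abs_nonneg _) hB') ?_
    have := abs_sub_le S6 S5 S4
    linarith
  have c2 := abs_sub_le S1 S2 (S6 / B)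
  have c3 := abs_sub_le S2 S3 (S6 / B)
  have c4 := abs_sub_le S3 (S4 / B) (S6 / B)
  rw [abs_sub_comm (S4 / B)] at c4
  linarith

theorem class_Gs {Y : ℝ} (hY : 0 ≤ Y) {Φ : ℤ → ℝ} (hΦ : Inv Φ Y) (B : ℕ) (hB : Odd B) (c : ℤ) {W : ℝ} (hW0 : 0 < W) (hW1 : W ≤ 1) :
    Tendsto (fun a : ℝ => Gs (fun N => Φ N * ic B c N) W a - Gs Φ W a / B) atTop (𝓝 0) := by
  have hBpos : 0 < B := by
    rcases Nat.eq_zero_or_pos B with h | h
    · rw [h] at hB; exact absurd hB (by decide)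
    · exact h
  rw [Metric.tendsto_nhds]
  intro ε hε
  have h1 : Tendsto (fun t : ℕ => Real.exp (-((t : ℝ) ^ (1 / 10 : ℝ)))) atTop (𝓝 0) :=
    Real.tendsto_exp_neg_atTop_nhds_zero.comp ((tendsto_rpow_atTop (show (0 : ℝ) < 1 / 10 by norm_num)).comp tendsto_natCast_atTop_atTop)
  have h2 : Tendsto (fun t : ℕ => (1 / 5 : ℝ) ^ t) atTop (𝓝 0) := tendsto_pow_atTop_nhds_zero_of_lt_one (by norm_num) (by norm_num)
  have h3 : ∀ᶠ t : ℕ in atTop, Real.exp (-((t : ℝ) ^ (1 / 10 : ℝ))) < ε / 100 := h1.eventually (gt_mem_nhds (by positivity))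
  have h4 : ∀ᶠ t : ℕ in atTop, (1 / 5 : ℝ) ^ t < ε / 100 := h2.eventually (gt_mem_nhds (by positivity))
  obtain ⟨T0, hT0⟩ := (h3.and h4).exists_forall_of_atTop
  obtain ⟨t, m, ht0, ht3, hm, hmix⟩ := mix_all B hB (show 0 < ε / 100 by positivity) T0
  obtain ⟨q1, q2⟩ := hT0 t ht0
  have hexp : Tendsto (fun a : ℝ => Real.exp (a - W)) atTop atTop :=
    Real.tendsto_exp_atTop.comp (tendsto_atTop_add_const_right atTop (-W) tendsto_id)
  filter_upwards [hexp.eventually_ge_atTop (16 * 10 ^ t * B / W + 4 * 2 ^ t + Y * 2 ^ t)] with a ha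
  have p1 : 0 ≤ 16 * (10 : ℝ) ^ t * B / W := by positivity
  have p2 : 0 ≤ 4 * (2 : ℝ) ^ t := by positivity
  have p3 : 0 ≤ Y * 2 ^ t := by positivity
  have hz : 16 * (10 : ℝ) ^ t * B ≤ W * Real.exp (a - W) := by
    have : 16 * (10 : ℝ) ^ t * B / W ≤ Real.exp (a - W) := by linarith
    rw [div_le_iff₀ hW0] at this
    linarith
  have hq : 4 * (2 : ℝ) ^ t ≤ Real.exp (a - W) := by linarith
  obtain ⟨X, hX⟩ : ∃ X : ℤ, X = ⌈(2 : ℝ) ^ t * Real.exp (a + W)⌉ := ⟨_, rfl⟩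
  have hX1 : 2 ^ t * Real.exp (a + W) ≤ X := by rw [hX]; exact Int.le_ceil _
  have hX2 : Real.exp (a + W) ≤ X := by
    refine le_trans ?_ hX1
    have h5 : (1 : ℝ) ≤ 2 ^ t := one_le_pow₀ (by norm_num)
    have h6 := Real.exp_pos (a + W)
    nlinarith
  have hmain := class_SS hΦ.nonneg hΦ.le_one ht3 hm hW0 hW1 B hBpos hz hq X hX1 (fun N hN => by
    apply hΦ.iter t N _ hY
    linarith) c
  rw [Gs_eq _ hW0 hX2, Gs_eq Φ hW0 hX2] at hmain
  rw [Real.dist_eq, sub_zero]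
  refine lt_of_le_of_lt hmain ?_
  have hm2 := hmix c
  have h7 : 4 * Real.exp (-((t : ℝ) ^ (1 / 10 : ℝ))) * (2 * W + 1) ≤ 4 * (ε / 100) * 3 := by
    apply mul_le_mul _ (by linarith) (by linarith) (by positivity)
    linarith
  linarith

theorem dens_class {Y : ℝ} (hY : 0 ≤ Y) {Φ : ℤ → ℝ} (hΦ : Inv Φ Y) {c0 : ℝ}
    (hc0 : Tendsto (fun X : ℕ => Nc Φ X / X) atTop (𝓝 c0)) (B : ℕ) (hB : Odd B) (c : ℤ) :
    Tendsto (fun X : ℕ => Nc (fun N => if (B : ℤ) ∣ N - c then Φ N else 0) X / X) atTop (𝓝 (c0 / B)) := by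
  obtain ⟨c1, hc1⟩ := Gs_lim hY hΦ
  have h1 := nat_dens_of hΦ hc1
  have h2 : c0 = c1 := tendsto_nhds_unique hc0 h1
  have hΦe : (fun N : ℤ => if (B : ℤ) ∣ N - c then Φ N else 0) = fun N => Φ N * ic B c N := by
    funext N
    unfold ic
    split_ifs
    · rw [mul_one]
    · rw [mul_zero]
  rw [hΦe, h2]
  apply nat_dens_ofN
  · intro N
    exact mul_nonneg (hΦ.nonneg N) (ic_nonneg B c N)
  · intro N
    exact mul_le_one₀ (hΦ.le_one N) (ic_nonneg B c N) (ic_le_one B c N)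
  · intro l
    have h3 := class_Gs hY hΦ B hB c (W := (1 / 2) ^ l) (by positivity) (pow_le_one₀ (by norm_num) (by norm_num))
    have h4 := h3.add ((hc1 l).div_const (B : ℝ))
    rw [zero_add] at h4
    have e : c1 / B * (1 / 2) ^ l = c1 * (1 / 2) ^ l / B := by ring
    rw [e]
    refine h4.congr (fun a => ?_)
    ring

end Pool.Agent.Helper3.TD
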