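import Pool.Agent.Helper3.EQ.MixAll
import Pool.Agent.Helper3.TD.Fine2

/-! Logarithmic sums over residue classes. -/

namespace Pool.Agent.Helper3.TD

open Pool.Agent.Helper3.ND

/-- indicator of a residue class -/
noncomputable def ic (B : ℕ) (c N : ℤ) : ℝ := if (B : ℤ) ∣ N - c then 1 else 0

theorem ic_nonneg (B : ℕ) (c N : ℤ) : 0 ≤ ic B c N := by unfold ic; split_ifs <;> norm_num

theorem ic_le_one (B : ℕ) (c N : ℤ) : ic B c N ≤ 1 := by unfold ic; split_ifs <;> norm_num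

theorem finAN {Φ : ℤ → ℝ} (hΦ0 : ∀ N, 0 ≤ Φ N) (hΦ1 : ∀ N, Φ N ≤ 1) {t m : ℕ} (ht : 10 ^ 3 ≤ t) (hm : 5 * m ≤ 2 * t)
    {a W : ℝ} (hW0 : 0 < W) (hq : 4 * (2 : ℝ) ^ t ≤ Real.exp (a - W)) (X : ℤ)
    (hinv : ∀ N : ℤ, Real.exp (a - W) < |(N : ℝ)| → Φ (T^[t] N) = Φ N) (B : ℕ) (c : ℤ) :
    |SS (fun N => Φ N * ic B c N) X a W - ∑ N ∈ Finset.Icc (-X) X, (if od t N ∈ KS t m then Φ (T^[t] N) * (om a W N * ic B c N) else 0)| ≤
      4 * Real.exp (-((t : ℝ) ^ (1 / 10 : ℝ))) * (2 * W + 1) := by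
  refine le_trans ?_ (fineA hΦ0 hΦ1 ht hm hW0 hq X hinv)
  have key : ∀ N, Φ (T^[t] N) * om a W N = Φ N * om a W N := by
    intro N
    by_cases h0 : om a W N = 0
    · rw [h0, mul_zero, mul_zero]
    · obtain ⟨h2, h3⟩ := om_ne_zero hW0 h0
      have h4 : Real.exp (a - W) < |(N : ℝ)| := by
        rw [← Real.lt_log_iff_exp_lt h2]
        rw [abs_lt] at h3
        linarith
      rw [hinv N h4]
  have e1 : SS (fun N => Φ N * ic B c N) X a W - ∑ N ∈ Finset.Icc (-X) X, (if od t N ∈ KS t m then Φ (T^[t] N) * (om a W N * ic B c N) else 0) =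
      ∑ N ∈ Finset.Icc (-X) X, (if od t N ∈ KS t m then 0 else Φ N * om a W N * ic B c N) := by
    unfold SS
    rw [← Finset.sum_sub_distrib]
    apply Finset.sum_congr rfl
    intro N _
    have h1 := key N
    split_ifs
    · rw [← mul_assoc, h1]; ring
    · ring
  have e2 : SS Φ X a W - ∑ N ∈ Finset.Icc (-X) X, (if od t N ∈ KS t m then Φ (T^[t] N) * om a W N else 0) =
      ∑ N ∈ Finset.Icc (-X) X, (if od t N ∈ KS t m then 0 else Φ N * om a W N) := by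
    unfold SS
    rw [← Finset.sum_sub_distrib]
    apply Finset.sum_congr rfl
    intro N _
    have h1 := key N
    split_ifs
    · rw [h1]; ring
    · ring
  rw [e1, e2]
  have hn : ∀ N, 0 ≤ Φ N * om a W N := fun N => mul_nonneg (hΦ0 N) (om_nonneg _ _ _)
  have p1 : 0 ≤ ∑ N ∈ Finset.Icc (-X) X, (if od t N ∈ KS t m then 0 else Φ N * om a W N * ic B c N) := by
    apply Finset.sum_nonneg
    intro N _
    split_ifs
    · exact le_rfl
    · exact mul_nonneg (hn N) (ic_nonneg B c N)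
  have p2 : ∑ N ∈ Finset.Icc (-X) X, (if od t N ∈ KS t m then 0 else Φ N * om a W N * ic B c N) ≤
      ∑ N ∈ Finset.Icc (-X) X, (if od t N ∈ KS t m then 0 else Φ N * om a W N) := by
    apply Finset.sum_le_sum
    intro N _
    split_ifs
    · exact le_rfl
    · exact mul_le_of_le_one_right (hn N) (ic_le_one B c N)
  rw [abs_of_nonneg p1, abs_of_nonneg (le_trans p1 p2)]
  exact p2

theorem class_iff (t : ℕ) (r : ℕ) (M c : ℤ) (B : ℕ) :
    ((3 : ℤ) ^ od t (r : ℤ) ∣ M - T^[t] (r : ℤ) ∧ (B : ℤ) ∣ nn t r M - c) ↔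
      ((3 ^ od t (r : ℤ) * B : ℕ) : ℤ) ∣ 2 ^ t * M - cc t (r : ℤ) - 3 ^ od t (r : ℤ) * c := by
  obtain ⟨k, hk⟩ : ∃ k, k = od t (r : ℤ) := ⟨_, rfl⟩
  have haff := affine t (r : ℤ)
  have hp : (3 : ℤ) ^ k ≠ 0 := by positivity
  have hform : (3 : ℤ) ^ k ∣ M - T^[t] (r : ℤ) → 2 ^ t * M - cc t (r : ℤ) - 3 ^ k * c = 3 ^ k * (nn t r M - c) := by
    rintro ⟨w, hw⟩
    unfold nn
    rw [← hk, hw, Int.mul_ediv_cancel_left _ hp]
    rw [← hk] at haff
    linear_combination 2 ^ t * hw + haff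
  rw [← hk]
  push_cast
  constructor
  · rintro ⟨h1, h2⟩
    rw [hform h1]
    exact mul_dvd_mul_left _ h2
  · intro h
    have h1 : (3 : ℤ) ^ k ∣ 2 ^ t * M - cc t (r : ℤ) - 3 ^ k * c := dvd_trans (Dvd.intro _ rfl) h
    have h2 : (3 : ℤ) ^ k ∣ 2 ^ t * (M - T^[t] (r : ℤ)) := by
      have h3 : (3 : ℤ) ^ k ∣ 3 ^ k * (c - (r : ℤ)) := Dvd.intro _ rfl
      have h4 := dvd_add h1 h3
      rw [← hk] at haff
      have h5 : 2 ^ t * M - cc t (r : ℤ) - 3 ^ k * c + 3 ^ k * (c - (r : ℤ)) = 2 ^ t * (M - T^[t] (r : ℤ)) := by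
        linear_combination haff
      rwa [h5] at h4
    have hc : IsCoprime ((3 : ℤ) ^ k) ((2 : ℤ) ^ t) := by
      apply IsCoprime.pow
      norm_num [Int.isCoprime_iff_gcd_eq_one]
    have h3 := hc.dvd_of_dvd_mul_left h2
    refine ⟨h3, ?_⟩
    rw [hform h3] at h
    exact (mul_dvd_mul_iff_left hp).mp h

/-- collecting the residues, with the class -/
theorem Gq_collect (t : ℕ) (S : Finset ℕ) (w : ℕ → ℝ) (M c : ℤ) (B : ℕ) (hB : 0 < B) :
    ∑ r ∈ Finset.range (2 ^ t), (if od t (r : ℤ) ∈ S ∧ (3 : ℤ) ^ od t (r : ℤ) ∣ M - T^[t] (r : ℤ) then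
      (3 : ℝ) ^ od t (r : ℤ) / 2 ^ t * w (od t (r : ℤ)) * ic B c (nn t r M) else 0) =
      ∑ k ∈ S, Gq (3 ^ k * B) t k c (fun _ => True) M / B * w k := by
  classical
  have hB' : (B : ℝ) ≠ 0 := by exact_mod_cast hB.ne'
  have e : ∀ k ∈ S, Gq (3 ^ k * B) t k c (fun _ => True) M / B * w k = ∑ r ∈ Finset.range (2 ^ t),
      ((if od t (r : ℤ) = k ∧ True ∧ ((3 ^ k * B : ℕ) : ℤ) ∣ 2 ^ t * M - cc t (r : ℤ) - 3 ^ k * c then ((3 ^ k * B : ℕ) : ℝ) / 2 ^ t else 0) / B * w k) := by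
    intro k _
    unfold Gq
    rw [Finset.sum_div, Finset.sum_mul]
    apply Finset.sum_congr rfl
    intro r _
    beta_reduce
    split_ifs <;> rfl
  rw [Finset.sum_congr rfl e, Finset.sum_comm]
  apply Finset.sum_congr rfl
  intro r _
  have hcl := class_iff t r M c B
  by_cases h1 : od t (r : ℤ) ∈ S
  · rw [Finset.sum_eq_single_of_mem _ h1]
    · by_cases h2 : (3 : ℤ) ^ od t (r : ℤ) ∣ M - T^[t] (r : ℤ)
      · rw [if_pos ⟨h1, h2⟩]
        unfold ic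
        by_cases h3 : (B : ℤ) ∣ nn t r M - c
        · rw [if_pos h3, if_pos ⟨rfl, trivial, hcl.mp ⟨h2, h3⟩⟩]
          push_cast
          field_simp
        · rw [if_neg h3, if_neg (fun h => h3 (hcl.mpr h.2.2).2)]
          simp
      · rw [if_neg (fun h => h2 h.2), if_neg (fun h => h2 (hcl.mpr h.2.2).1)]
        simp
    · intro k _ hne
      rw [if_neg (fun h => hne h.1.symm)]
      simp
  · rw [if_neg (fun h => h1 h.1), Finset.sum_eq_zero]
    intro k hk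
    rw [if_neg]
    · simp
    intro h
    rw [h.1] at h1
    exact h1 hk

theorem finBN {Φ : ℤ → ℝ} (hΦ0 : ∀ N, 0 ≤ Φ N) (hΦ1 : ∀ N, Φ N ≤ 1) {t m : ℕ}
    {a W : ℝ} (hW0 : 0 < W) (hW1 : W ≤ 1) (hz : 16 * 10 ^ t ≤ W * Real.exp (a - W)) (X : ℤ) (hX : 2 ^ t * Real.exp (a + W) ≤ X)
    (B : ℕ) (hB : 0 < B) (cl : ℤ) :
    |∑ N ∈ Finset.Icc (-X) X, (if od t N ∈ KS t m then Φ (T^[t] N) * (om a W N * ic B cl N) else 0) -
      ∑ M ∈ Finset.Icc (-X) X, Φ M * ∑ k ∈ KS t m, Gq (3 ^ k * B) t k cl (fun _ => True) M / B * om (bk a t k) W M| ≤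
      10 * (1 / 5) ^ t := by
  classical
  obtain ⟨c, hc⟩ : ∃ c : ℝ, c = (1 / 5 : ℝ) ^ t := ⟨_, rfl⟩
  have hc0 : 0 ≤ c := by rw [hc]; positivity
  have hω : ∀ N, om a W N * ic B cl N ≠ 0 → 2 ^ t * |N| ≤ X := by
    intro N hN
    obtain ⟨h2, h3⟩ := om_ne_zero hW0 (left_ne_zero_of_mul hN)
    rw [abs_lt] at h3
    have h4 : |(N : ℝ)| < Real.exp (a + W) := by
      rw [← Real.log_lt_iff_lt_exp h2]; linarith
    have h5 : (2 : ℝ) ^ t * |(N : ℝ)| ≤ X := by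
      refine le_trans ?_ hX
      gcongr
    exact_mod_cast h5
  rw [change t X Φ (fun N => om a W N * ic B cl N) (fun k => k ∈ KS t m) hω, ← Finset.sum_sub_distrib]
  refine le_trans (Finset.abs_sum_le_sum_abs _ _) ?_
  have h1 : ∀ M ∈ Finset.Icc (-X) X, |∑ r ∈ Finset.range (2 ^ t),
      (if od t (r : ℤ) ∈ KS t m ∧ (3 : ℤ) ^ od t (r : ℤ) ∣ M - T^[t] (r : ℤ) then Φ M * (om a W (nn t r M) * ic B cl (nn t r M)) else 0) -
      Φ M * ∑ k ∈ KS t m, Gq (3 ^ k * B) t k cl (fun _ => True) M / B * om (bk a t k) W M| ≤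
      ∑ k ∈ KS t m, (if |Real.log |(M : ℝ)| - bk a t k| ≤ W + 1 then D k t k (fun _ => True) M / |(M : ℝ)| else 0) * c := by
    intro M _
    rw [← Gq_collect t (KS t m) (fun k => om (bk a t k) W M) M cl B hB, Finset.mul_sum, ← Finset.sum_sub_distrib]
    have h2 : ∀ r ∈ Finset.range (2 ^ t), |(if od t (r : ℤ) ∈ KS t m ∧ (3 : ℤ) ^ od t (r : ℤ) ∣ M - T^[t] (r : ℤ) then Φ M * (om a W (nn t r M) * ic B cl (nn t r M)) else 0) -
        Φ M * (if od t (r : ℤ) ∈ KS t m ∧ (3 : ℤ) ^ od t (r : ℤ) ∣ M - T^[t] (r : ℤ) then (3 : ℝ) ^ od t (r : ℤ) / 2 ^ t * om (bk a t (od t (r : ℤ))) W M * ic B cl (nn t r M) else 0)| ≤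
        (if od t (r : ℤ) ∈ KS t m ∧ (3 : ℤ) ^ od t (r : ℤ) ∣ M - T^[t] (r : ℤ) then (3 : ℝ) ^ od t (r : ℤ) / 2 ^ t *
          (fun k => if |Real.log |(M : ℝ)| - bk a t k| ≤ W + 1 then c / |(M : ℝ)| else 0) (od t (r : ℤ)) else 0) := by
      intro r _
      by_cases h3 : od t (r : ℤ) ∈ KS t m ∧ (3 : ℤ) ^ od t (r : ℤ) ∣ M - T^[t] (r : ℤ)
      · rw [if_pos h3, if_pos h3, if_pos h3]
        have h4 := finepair hW0 hW1 hz h3.2
        rw [← mul_sub, abs_mul, abs_of_nonneg (hΦ0 M), ← sub_mul, abs_mul, abs_of_nonneg (ic_nonneg B cl _)]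
        rw [← hc] at h4
        have h5 : |om a W (nn t r M) - 3 ^ od t (r : ℤ) / 2 ^ t * om (bk a t (od t (r : ℤ))) W M| * ic B cl (nn t r M) ≤
            |om a W (nn t r M) - 3 ^ od t (r : ℤ) / 2 ^ t * om (bk a t (od t (r : ℤ))) W M| :=
          mul_le_of_le_one_right (abs_nonneg _) (ic_le_one B cl _)
        refine le_trans (mul_le_mul (hΦ1 M) (le_trans h5 h4) (mul_nonneg (abs_nonneg _) (ic_nonneg B cl _)) (by norm_num)) (le_of_eq ?_)
        rw [one_mul]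
        simp only
        split_ifs
        · ring
        · ring
      · rw [if_neg h3, if_neg h3, if_neg h3, mul_zero, sub_zero, abs_zero]
    refine le_trans (Finset.abs_sum_le_sum_abs _ _) (le_trans (Finset.sum_le_sum h2) (le_of_eq ?_))
    rw [D_collect' t (KS t m) (fun k => if |Real.log |(M : ℝ)| - bk a t k| ≤ W + 1 then c / |(M : ℝ)| else 0) M]
    apply Finset.sum_congr rfl
    intro k _
    split_ifs
    · ring
    · ring
  refine le_trans (Finset.sum_le_sum h1) ?_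
  rw [Finset.sum_comm]
  have h2 : ∀ k ∈ KS t m, ∑ M ∈ Finset.Icc (-X) X, (if |Real.log |(M : ℝ)| - bk a t k| ≤ W + 1 then D k t k (fun _ => True) M / |(M : ℝ)| else 0) * c ≤
      mass t k (fun _ => True) * (10 * c) := by
    intro k hk
    rw [← Finset.sum_mul]
    have h3 := win_sum3 (D_per k t k (fun _ => True)) (D_nonneg k t k (fun _ => True)) (b := bk a t k)
      (v := W + 1) (by linarith) (finecond (k := k) hW0 hW1 hz) X
    rw [Av_D] at h3
    have hm0 : 0 ≤ mass t k (fun _ => True) := by unfold mass; positivity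
    calc _ ≤ (2 * mass t k (fun _ => True) * (2 * (W + 1) + 1)) * c := mul_le_mul_of_nonneg_right h3 hc0
      _ ≤ (2 * mass t k (fun _ => True) * 5) * c := by
          apply mul_le_mul_of_nonneg_right _ hc0
          apply mul_le_mul_of_nonneg_left _ (by positivity)
          linarith
      _ = _ := by ring
  refine le_trans (Finset.sum_le_sum h2) ?_
  rw [← Finset.sum_mul]
  have h3 := mass_le_one t (KS t m) (fun _ => True)
  calc _ ≤ 1 * (10 * c) := by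
        apply mul_le_mul_of_nonneg_right h3 (by positivity)
    _ = _ := by rw [one_mul, hc]

theorem finewinQ {W : ℝ} (hW0 : 0 < W) (b : ℝ) {q : ℕ} (hq : 0 < q) {f : ℤ → ℝ} (h : ∀ x : ℤ, f (x + q) = f x) (hf : ∀ x, 0 ≤ f x)
    (hb : 4 * (q : ℝ) ≤ Real.exp (b - (W + 1))) (X : ℤ) :
    ∑ M ∈ Finset.Icc (-X) X, f M * om b W M ≤ 2 * AvQ q f * (2 * W + 1) := by
  have h1 := win_sum (q := q) hq h hf (b := b) (v := W) hW0.le (by
    refine le_trans hb (Real.exp_le_exp.mpr ?_)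
    linarith) X
  refine le_trans (Finset.sum_le_sum ?_) h1
  intro M _
  have h2 := om_le_win (a := b) hW0 M
  split_ifs at h2 ⊢
  · calc f M * om b W M ≤ f M * (1 / |(M : ℝ)|) := mul_le_mul_of_nonneg_left h2 (hf M)
      _ = _ := by ring
  · have : om b W M = 0 := le_antisymm h2 (om_nonneg _ _ _)
    rw [this, mul_zero]

theorem finecondB {t k : ℕ} {a W : ℝ} (hW0 : 0 < W) (hW1 : W ≤ 1) (B : ℕ) (hB : 0 < B) (hz : 16 * 10 ^ t * B ≤ W * Real.exp (a - W)) :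
    4 * ((3 ^ k * B : ℕ) : ℝ) ≤ Real.exp (bk a t k - (W + 1)) := by
  have hB' : (0 : ℝ) < B := by exact_mod_cast hB
  have h1 : Real.exp (a - Real.log B - W) = Real.exp (a - W) / B := by
    rw [show a - Real.log B - W = (a - W) - Real.log B by ring, Real.exp_sub, Real.exp_log hB']
  have h2 := finecond (t := t) (k := k) (a := a - Real.log B) hW0 hW1 (by
    rw [h1, mul_div_assoc', le_div_iff₀ hB']
    exact hz)
  have h3 : bk (a - Real.log B) t k - (W + 1) = (bk a t k - (W + 1)) - Real.log B := by unfold bk; ring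
  rw [h3, Real.exp_sub, Real.exp_log hB', le_div_iff₀ hB'] at h2
  push_cast
  linarith

/-- replacing the density modulo `3 ^ k * B` by the density modulo `3 ^ k` -/
theorem finDN {Φ : ℤ → ℝ} (hΦ0 : ∀ N, 0 ≤ Φ N) (hΦ1 : ∀ N, Φ N ≤ 1) {t m : ℕ}
    {a W : ℝ} (hW0 : 0 < W) (hW1 : W ≤ 1) (B : ℕ) (hB : 0 < B) (hz : 16 * 10 ^ t * B ≤ W * Real.exp (a - W)) (X : ℤ) (c : ℤ) :
    |∑ M ∈ Finset.Icc (-X) X, Φ M * ∑ k ∈ KS t m, Gq (3 ^ k * B) t k c (fun _ => True) M / B * om (bk a t k) W M -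
      (∑ M ∈ Finset.Icc (-X) X, Φ M * ∑ k ∈ KS t m, Gq (3 ^ k) t k c (fun _ => True) M * om (bk a t k) W M) / B| ≤
      6 * ∑ k ∈ KS t m, AvQ (3 ^ k * B) (fun M => |Gq (3 ^ k * B) t k c (fun _ => True) M - Gq (3 ^ k) t k c (fun _ => True) M|) := by
  classical
  have hB' : (1 : ℝ) ≤ B := by exact_mod_cast hB
  have hBpos : (0 : ℝ) < B := by linarith
  rw [Finset.sum_div, ← Finset.sum_sub_distrib]
  refine le_trans (Finset.abs_sum_le_sum_abs _ _) ?_
  have h1 : ∀ M ∈ Finset.Icc (-X) X, |Φ M * ∑ k ∈ KS t m, Gq (3 ^ k * B) t k c (fun _ => True) M / B * om (bk a t k) W M -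
      (Φ M * ∑ k ∈ KS t m, Gq (3 ^ k) t k c (fun _ => True) M * om (bk a t k) W M) / B| ≤
      ∑ k ∈ KS t m, |Gq (3 ^ k * B) t k c (fun _ => True) M - Gq (3 ^ k) t k c (fun _ => True) M| * om (bk a t k) W M := by
    intro M _
    have e1 : Φ M * ∑ k ∈ KS t m, Gq (3 ^ k * B) t k c (fun _ => True) M / B * om (bk a t k) W M -
      (Φ M * ∑ k ∈ KS t m, Gq (3 ^ k) t k c (fun _ => True) M * om (bk a t k) W M) / B =
        Φ M * ∑ k ∈ KS t m, (Gq (3 ^ k * B) t k c (fun _ => True) M - Gq (3 ^ k) t k c (fun _ => True) M) * (om (bk a t k) W M / B) := by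
      rw [mul_div_assoc, ← mul_sub, Finset.sum_div, ← Finset.sum_sub_distrib]
      congr 1
      apply Finset.sum_congr rfl
      intro k _
      ring
    rw [e1, abs_mul, abs_of_nonneg (hΦ0 M)]
    refine le_trans (mul_le_mul (hΦ1 M) (Finset.abs_sum_le_sum_abs _ _) (abs_nonneg _) (by norm_num)) ?_
    rw [one_mul]
    apply Finset.sum_le_sum
    intro k _
    have h0 := om_nonneg (bk a t k) W M
    rw [abs_mul, abs_of_nonneg (div_nonneg h0 hBpos.le)]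
    apply mul_le_mul_of_nonneg_left _ (abs_nonneg _)
    exact div_le_self h0 hB'
  refine le_trans (Finset.sum_le_sum h1) ?_
  rw [Finset.sum_comm, Finset.mul_sum]
  apply Finset.sum_le_sum
  intro k _
  have hp : ∀ x : ℤ, (fun M => |Gq (3 ^ k * B) t k c (fun _ => True) M - Gq (3 ^ k) t k c (fun _ => True) M|) (x + ((3 ^ k * B : ℕ) : ℤ)) =
      (fun M => |Gq (3 ^ k * B) t k c (fun _ => True) M - Gq (3 ^ k) t k c (fun _ => True) M|) x := by
    intro x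
    simp only
    rw [Gq_per (3 ^ k * B) t k c, per_dvd (Dvd.intro B rfl) (Gq_per (3 ^ k) t k c (fun _ => True)) x]
  have h2 := finewinQ hW0 (bk a t k) (q := 3 ^ k * B) (Nat.mul_pos (by positivity) hB)
    (f := fun M => |Gq (3 ^ k * B) t k c (fun _ => True) M - Gq (3 ^ k) t k c (fun _ => True) M|) hp (fun x => abs_nonneg _)
    (finecondB (k := k) hW0 hW1 B hB hz) X
  have h3 : 0 ≤ AvQ (3 ^ k * B) (fun M => |Gq (3 ^ k * B) t k c (fun _ => True) M - Gq (3 ^ k) t k c (fun _ => True) M|) := AvQ_nonneg (fun x => abs_nonneg _)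
  refine le_trans h2 ?_
  have h4 : 2 * W + 1 ≤ 3 := by linarith
  calc _ ≤ 2 * AvQ (3 ^ k * B) (fun M => |Gq (3 ^ k * B) t k c (fun _ => True) M - Gq (3 ^ k) t k c (fun _ => True) M|) * 3 := by gcongr
    _ = _ := by ring

end Pool.Agent.Helper3.TD
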