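import Pool.Agent.Helper3.EQ.MixN

/-! Low frequencies: the walk meets a white point in every block of steps. -/

namespace Pool.Agent.Helper3.TD

open Pool.Agent.Helper3.ND

theorem U_zero_of {q : ℤ} {p : ℕ → ℕ → ℤ} (A : Arr q p) {S : ℕ} (nr : ∀ j h, ¬ run q p j h S) (K : ℕ) :
    ∀ R j h, U q p (K * (S + 1) + R) K j h ≤ 0 := by
  induction K with
  | zero => intro R j h; rw [U_K_zero]
  | succ K ih =>
    intro R j h
    have e : (K + 1) * (S + 1) + R = (S + 1) + (K * (S + 1) + R) := by ring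
    rw [e]
    refine le_trans (U_gain A (nr j h) (S + 1) le_rfl (K * (S + 1) + R) K) ?_
    have h1 := W_mono (S + 1) (f := U q p (K * (S + 1) + R) K (j + (S + 1))) (g := fun _ => 0) (fun z => ih R (j + (S + 1)) z) h
    rwa [W_const] at h1

theorem pvN_ne (m n1 N : ℕ) (hN : N = m * 3 ^ n1) [NeZero N] [Fact (Nat.Coprime 2 N)] (hm3 : Nat.Coprime m 3)
    (ξ : ZMod N) (hξ : ¬ m ∣ ξ.val) (j h : ℕ) : pvN N ξ j h ≠ 0 := by
  intro h0
  have h1 := pvN_cast N ξ j h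
  rw [h0, Int.cast_zero] at h1
  unfold xvN at h1
  have h2 : IsUnit ((hn N ^ 2) ^ (j + 1)) := ((hn_unit N).pow 2).pow (j + 1)
  have h3 : ξ * 3 ^ h = 0 := by
    rw [← h2.mul_left_eq_zero]
    exact h1.symm
  have h4 : ((ξ.val * 3 ^ h : ℕ) : ZMod N) = 0 := by
    push_cast
    rw [ZMod.natCast_zmod_val]
    exact h3
  rw [ZMod.natCast_eq_zero_iff] at h4
  have h5 : m ∣ ξ.val * 3 ^ h := dvd_trans (Dvd.intro _ hN.symm) h4
  exact hξ ((Nat.Coprime.pow_right h hm3).dvd_of_dvd_mul_right h5)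

theorem low_X (m n1 N S : ℕ) (hN : N = m * 3 ^ n1) [NeZero N] [Fact (Nat.Coprime 2 N)] (hm3 : Nat.Coprime m 3) (hS : N ≤ 4 ^ S)
    (ξ : ZMod N) (hξ : ¬ m ∣ ξ.val) (t k K : ℕ) (hK : 2 * (K * (S + 1)) ≤ t) : ‖XN N t ξ k‖ ≤ 2 ^ t * θ0 ^ K := by
  have A := arr_pvN N ξ
  have nr : ∀ j h, ¬ run (N : ℤ) (pvN N ξ) j h S := by
    intro j h hr
    have h1 := A.run_eq hr S le_rfl
    have h2 := hr 0 (Nat.zero_le _)
    unfold bl at h2
    rw [add_zero, h1, abs_mul, abs_of_pos (show (0 : ℤ) < 4 ^ S by positivity)] at h2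
    have h3 : 1 ≤ |pvN N ξ (j + S) h| := Int.one_le_abs (pvN_ne m n1 N hN hm3 ξ hξ _ _)
    have h4 : (N : ℤ) ≤ 4 ^ S := by exact_mod_cast hS
    have h5 : (0 : ℤ) < 4 ^ S := by positivity
    nlinarith
  obtain ⟨R, hR⟩ : ∃ R, R = t / 2 := ⟨_, rfl⟩
  obtain ⟨t', ht'⟩ : ∃ t', t' = t % 2 := ⟨_, rfl⟩
  have ht : t = 2 * R + t' := by omega
  obtain ⟨R', hR'⟩ : ∃ R', R = K * (S + 1) + R' := ⟨R - K * (S + 1), by omega⟩
  have h1 := XN_le_V N ξ t' (2 ^ t') (fun i => by exact_mod_cast Nat.choose_le_two_pow t' i) R 0 0 k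
  rw [pow_zero, pow_zero, mul_one, mul_one, ← ht] at h1
  have hg0 : ∀ j h, 0 ≤ gvN N ξ j h := fun j h => by unfold gvN; positivity
  have hg1 : ∀ j h, gvN N ξ j h ≤ 1 := fun j h => by
    unfold gvN
    have : ‖1 + (ZMod.stdAddChar (xvN N ξ j h) : ℂ)‖ ≤ 2 := by
      refine le_trans (norm_add_le _ _) ?_
      rw [norm_one, norm_char]; norm_num
    linarith
  have h2 := V_le_U (q := (N : ℤ)) (p := pvN N ξ) hg0 hg1 θ0_nonneg θ0_lt.le (fun j h hw => gvN_white N ξ j h hw) R K 0 0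
  have h3 := U_zero_of A nr K R' 0 0
  rw [← hR'] at h3
  have h4 : (4 : ℝ) ^ R * 2 ^ t' = 2 ^ t := by
    rw [ht, pow_add, pow_mul]; norm_num
  rw [h4] at h1
  refine le_trans h1 ?_
  apply mul_le_mul_of_nonneg_left _ (by positivity)
  linarith

theorem lowN (m n1 S : ℕ) (hm : 0 < m) (hm2 : Nat.Coprime 2 m) (hm3 : Nat.Coprime m 3) (hS : m * 3 ^ n1 ≤ 4 ^ S)
    (t k K : ℕ) (hK : 2 * (K * (S + 1)) ≤ t) (c : ℤ) :
    AvQ (m * 3 ^ n1) (fun M => |Gq (m * 3 ^ n1) t k c (fun _ => True) M - Gq (3 ^ n1) t k c (fun _ => True) M|) ≤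
      Real.sqrt ((m * 3 ^ n1 : ℕ) : ℝ) * θ0 ^ K := by
  classical
  obtain ⟨N, hN⟩ : ∃ N, N = m * 3 ^ n1 := ⟨_, rfl⟩
  have hNpos : 0 < N := by rw [hN]; positivity
  have i1 : NeZero N := ⟨hNpos.ne'⟩
  have i2 : Fact (Nat.Coprime 2 N) := ⟨by rw [hN]; exact Nat.Coprime.mul_right hm2 (Nat.Coprime.pow_right n1 (by norm_num))⟩
  rw [← hN] at hS ⊢
  have hθ := θ0_nonneg
  have hg := gdiff' m (3 ^ n1) N t k hN c (fun _ => True) ((N : ℝ) * (θ0 ^ K) ^ 2) (by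
    have h1 : ∀ ξ : ZMod N, (if ¬ m ∣ ξ.val then ‖CwN N t k (fun _ => True) ξ‖ ^ 2 else 0) ≤ (2 ^ t * θ0 ^ K) ^ 2 := by
      intro ξ
      split_ifs with h
      · positivity
      · rw [CwN_true]
        exact pow_le_pow_left₀ (norm_nonneg _) (low_X m n1 N S hN hm3 hS ξ h t k K hK) 2
    refine le_trans (Finset.sum_le_sum (fun ξ _ => h1 ξ)) (le_of_eq ?_)
    rw [Finset.sum_const, Finset.card_univ, ZMod.card, nsmul_eq_mul]
    ring)
  refine le_trans hg (le_of_eq ?_)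
  rw [Real.sqrt_mul (by positivity), Real.sqrt_sq (by positivity)]

end Pool.Agent.Helper3.TD
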