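import Pool.Agent.Helper3.EQ.LowN

/-! The density modulo `3 ^ k * B` is close to the density modulo `3 ^ k` on average. -/

namespace Pool.Agent.Helper3.TD

open Pool.Agent.Helper3.ND Filter Topology

theorem KS_mem {t m k : ℕ} (h : k ∈ KS t m) : k ≤ t ∧ m ≤ k := by
  classical
  unfold KS at h
  rw [Finset.mem_filter, Finset.mem_range] at h
  exact ⟨by omega, h.2.1⟩

theorem tri_avg {m j n k t : ℕ} (hm : 0 < m) (c : ℤ) (hk : n ≤ k) :
    AvQ (m * 3 ^ (k + j)) (fun M => |Gq (m * 3 ^ (k + j)) t k c (fun _ => True) M - Gq (3 ^ k) t k c (fun _ => True) M|) ≤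
      AvQ (m * 3 ^ (k + j)) (fun M => |Gq (m * 3 ^ (k + j)) t k c (fun _ => True) M - Gq (m * 3 ^ n) t k c (fun _ => True) M|) +
      AvQ (m * 3 ^ n) (fun M => |Gq (m * 3 ^ n) t k c (fun _ => True) M - Gq (3 ^ n) t k c (fun _ => True) M|) +
      AvQ (3 ^ k) (fun M => |Gq (3 ^ k) t k c (fun _ => True) M - Gq (3 ^ n) t k c (fun _ => True) M|) := by
  have hpos : 0 < m * 3 ^ (k + j) := Nat.mul_pos hm (by positivity)
  have h1 : ∀ M, |Gq (m * 3 ^ (k + j)) t k c (fun _ => True) M - Gq (3 ^ k) t k c (fun _ => True) M| ≤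
      |Gq (m * 3 ^ (k + j)) t k c (fun _ => True) M - Gq (m * 3 ^ n) t k c (fun _ => True) M| +
      |Gq (m * 3 ^ n) t k c (fun _ => True) M - Gq (3 ^ n) t k c (fun _ => True) M| +
      |Gq (3 ^ k) t k c (fun _ => True) M - Gq (3 ^ n) t k c (fun _ => True) M| := by
    intro M
    have a1 := abs_sub_le (Gq (m * 3 ^ (k + j)) t k c (fun _ => True) M) (Gq (m * 3 ^ n) t k c (fun _ => True) M) (Gq (3 ^ k) t k c (fun _ => True) M)
    have a2 := abs_sub_le (Gq (m * 3 ^ n) t k c (fun _ => True) M) (Gq (3 ^ n) t k c (fun _ => True) M) (Gq (3 ^ k) t k c (fun _ => True) M)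
    rw [abs_sub_comm (Gq (3 ^ n) t k c (fun _ => True) M) (Gq (3 ^ k) t k c (fun _ => True) M)] at a2
    linarith
  refine le_trans (AvQ_mono h1) ?_
  rw [AvQ_add, AvQ_add]
  have p2 : ∀ x : ℤ, (fun M => |Gq (m * 3 ^ n) t k c (fun _ => True) M - Gq (3 ^ n) t k c (fun _ => True) M|) (x + ((m * 3 ^ n : ℕ) : ℤ)) =
      (fun M => |Gq (m * 3 ^ n) t k c (fun _ => True) M - Gq (3 ^ n) t k c (fun _ => True) M|) x := by
    intro x
    simp only
    rw [Gq_per (m * 3 ^ n) t k c, per_dvd (Dvd.intro_left m rfl) (Gq_per (3 ^ n) t k c (fun _ => True)) x]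
  have p3 : ∀ x : ℤ, (fun M => |Gq (3 ^ k) t k c (fun _ => True) M - Gq (3 ^ n) t k c (fun _ => True) M|) (x + ((3 ^ k : ℕ) : ℤ)) =
      (fun M => |Gq (3 ^ k) t k c (fun _ => True) M - Gq (3 ^ n) t k c (fun _ => True) M|) x := by
    intro x
    simp only
    rw [Gq_per (3 ^ k) t k c, per_dvd (pow_dvd_pow 3 hk) (Gq_per (3 ^ n) t k c (fun _ => True)) x]
  have q2 := AvQ_dvd (f := fun M => |Gq (m * 3 ^ n) t k c (fun _ => True) M - Gq (3 ^ n) t k c (fun _ => True) M|) (Nat.mul_dvd_mul_left m (pow_dvd_pow 3 (show n ≤ k + j by omega))) hpos p2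
  have q3 := AvQ_dvd (f := fun M => |Gq (3 ^ k) t k c (fun _ => True) M - Gq (3 ^ n) t k c (fun _ => True) M|) (Dvd.dvd.mul_left (pow_dvd_pow 3 (show k ≤ k + j by omega)) m) hpos p3
  rw [q2, q3]

theorem mix_all (B : ℕ) (hB : Odd B) {ε : ℝ} (hε : 0 < ε) (T0 : ℕ) : ∃ t m1 : ℕ, T0 ≤ t ∧ 10 ^ 3 ≤ t ∧ 5 * m1 ≤ 2 * t ∧
    ∀ c : ℤ, ∑ k ∈ KS t m1, AvQ (3 ^ k * B) (fun M => |Gq (3 ^ k * B) t k c (fun _ => True) M - Gq (3 ^ k) t k c (fun _ => True) M|) ≤ ε := by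
  have hB0 : B ≠ 0 := by
    rintro rfl
    exact absurd hB (by decide)
  obtain ⟨j, m, hm3', hBeq⟩ := Nat.exists_eq_pow_mul_and_not_dvd hB0 3 (by norm_num)
  have hm : 0 < m := by
    rcases Nat.eq_zero_or_pos m with h | h
    · rw [h] at hm3'; exact absurd (dvd_zero 3) hm3'
    · exact h
  have hm2 : Nat.Coprime 2 m := by
    have h1 : Nat.Coprime 2 B := (Nat.coprime_two_left).mpr hB
    exact Nat.Coprime.coprime_dvd_right (Dvd.intro_left _ hBeq.symm) h1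
  have hm3 : Nat.Coprime m 3 := ((Nat.Prime.coprime_iff_not_dvd Nat.prime_three).mpr hm3').symm
  obtain ⟨C1, hC1, n1, hn1, H1⟩ := mixingN m j hm hm2
  obtain ⟨C2, hC2, n2, hn2, H2⟩ := mixingN 1 0 one_pos (by norm_num)
  have hθ := θ0_nonneg
  have hθ1 := θ0_lt
  have hz : Tendsto (fun n : ℕ => (n : ℝ) ^ (-(1 / 2) : ℝ)) atTop (𝓝 0) :=
    (tendsto_rpow_neg_atTop (show (0 : ℝ) < 1 / 2 by norm_num)).comp tendsto_natCast_atTop_atTop
  have e1 : ∀ᶠ n : ℕ in atTop, C1 * (n : ℝ) ^ (-(1 / 2) : ℝ) < ε / 3 := by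
    have := hz.const_mul C1
    rw [mul_zero] at this
    exact this.eventually (gt_mem_nhds (by positivity))
  have e2 : ∀ᶠ n : ℕ in atTop, C2 * (n : ℝ) ^ (-(1 / 2) : ℝ) < ε / 3 := by
    have := hz.const_mul C2
    rw [mul_zero] at this
    exact this.eventually (gt_mem_nhds (by positivity))
  have e3 : ∀ᶠ n : ℕ in atTop, 3 * m * ((n : ℝ) ^ 6 * (1 / 2) ^ n) < ε / 3 := by
    have := (tendsto_pow_const_mul_const_pow_of_abs_lt_one 6 (show |(1 / 2 : ℝ)| < 1 by rw [abs_lt]; constructor <;> norm_num)).const_mul (3 * (m : ℝ))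
    rw [mul_zero] at this
    exact this.eventually (gt_mem_nhds (by positivity))
  have e4 : ∀ᶠ n : ℕ in atTop, θ0 ^ n < 1 / 6 :=
    (tendsto_pow_atTop_nhds_zero_of_lt_one hθ hθ1).eventually (gt_mem_nhds (by norm_num))
  obtain ⟨n, ⟨⟨⟨⟨a1, a2⟩, a3⟩, a4⟩, a5⟩⟩ := (((((e1.and e2).and e3).and e4).and
    (eventually_ge_atTop (n1 + n2 + m + T0 + 100))).exists)
  obtain ⟨t, ht⟩ : ∃ t, t = n ^ 10 := ⟨_, rfl⟩
  have hn100 : 100 ≤ n := by omega
  have hnt : n * n ≤ t := by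
    rw [ht]
    calc n * n = n * n * 1 := by ring
      _ ≤ n * n * n ^ 8 := Nat.mul_le_mul_left _ (Nat.one_le_pow _ _ (by omega))
      _ = n ^ 10 := by ring
  have hnn : 100 * n ≤ n * n := Nat.mul_le_mul_right _ hn100
  have hnr : (0 : ℝ) < n := by
    have : 0 < n := by omega
    exact_mod_cast this
  have ht20 : (t : ℝ) ^ (1 / 20 : ℝ) / n = (n : ℝ) ^ (-(1 / 2) : ℝ) := by
    have h1 : (t : ℝ) ^ (1 / 20 : ℝ) = (n : ℝ) ^ (1 / 2 : ℝ) := by
      rw [ht]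
      push_cast
      rw [← Real.rpow_natCast, ← Real.rpow_mul hnr.le]
      norm_num
    rw [h1]
    nth_rewrite 2 [← Real.rpow_one (n : ℝ)]
    rw [← Real.rpow_sub hnr]
    norm_num
  refine ⟨t, n, by omega, by omega, by omega, ?_⟩
  intro c
  have b1 := H1 t n (by omega) (by omega) c
  have b2 := H2 t n (by omega) (by omega) c
  simp only [one_mul, add_zero] at b2
  rw [mul_div_assoc, ht20] at b1 b2
  -- low frequencies
  have hlow : ∀ k, AvQ (m * 3 ^ n) (fun M => |Gq (m * 3 ^ n) t k c (fun _ => True) M - Gq (3 ^ n) t k c (fun _ => True) M|) ≤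
      m * (1 / 2) ^ n := by
    intro k
    have hS : m * 3 ^ n ≤ 4 ^ (m + n) := by
      rw [pow_add]
      exact Nat.mul_le_mul (Nat.lt_pow_self (by norm_num)).le (Nat.pow_le_pow_left (by norm_num) n)
    have hK : 2 * (n ^ 2 * (m + n + 1)) ≤ t := by
      have h1 : m + n + 1 ≤ n * n := by nlinarith
      have h2 : 2 * (n ^ 2 * (m + n + 1)) ≤ 2 * (n ^ 2 * (n * n)) := by
        apply Nat.mul_le_mul_left
        exact Nat.mul_le_mul_left _ h1
      refine le_trans h2 ?_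
      rw [ht]
      calc 2 * (n ^ 2 * (n * n)) = 2 * n ^ 4 := by ring
        _ ≤ n * n ^ 4 := Nat.mul_le_mul_right _ (by omega)
        _ = n ^ 5 := by ring
        _ ≤ n ^ 10 := Nat.pow_le_pow_right (by omega) (by norm_num)
    refine le_trans (lowN m n (m + n) hm hm2 hm3 hS t k (n ^ 2) hK c) ?_
    have hs : Real.sqrt ((m * 3 ^ n : ℕ) : ℝ) ≤ m * 3 ^ n := by
      have h1 : (1 : ℝ) ≤ ((m * 3 ^ n : ℕ) : ℝ) := by
        have : 1 ≤ m * 3 ^ n := Nat.mul_pos hm (by positivity)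
        exact_mod_cast this
      rw [Real.sqrt_le_left (by positivity)]
      push_cast at h1 ⊢
      nlinarith
    calc Real.sqrt ((m * 3 ^ n : ℕ) : ℝ) * θ0 ^ (n ^ 2) ≤ (m * 3 ^ n) * θ0 ^ (n ^ 2) := by gcongr
      _ = m * (3 * θ0 ^ n) ^ n := by rw [mul_pow, ← pow_mul, sq]; ring
      _ ≤ m * (1 / 2) ^ n := by
          apply mul_le_mul_of_nonneg_left _ (by positivity)
          apply pow_le_pow_left₀ (by positivity)
          linarith
  have hcard : ((KS t n).card : ℝ) ≤ 3 * (n : ℝ) ^ 6 := by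
    refine le_trans (card_KS t n (by omega)) ?_
    apply mul_le_mul_of_nonneg_left _ (by norm_num)
    rw [ht]
    push_cast
    rw [← Real.rpow_natCast, ← Real.rpow_natCast, ← Real.rpow_mul hnr.le]
    apply Real.rpow_le_rpow_of_exponent_le
    · have : 1 ≤ n := by omega
      exact_mod_cast this
    · norm_num
  have hstep : ∀ k ∈ KS t n, AvQ (3 ^ k * B) (fun M => |Gq (3 ^ k * B) t k c (fun _ => True) M - Gq (3 ^ k) t k c (fun _ => True) M|) ≤
      AvQ (m * 3 ^ (k + j)) (fun M => |Gq (m * 3 ^ (k + j)) t k c (fun _ => True) M - Gq (m * 3 ^ n) t k c (fun _ => True) M|) +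
      m * (1 / 2) ^ n +
      AvQ (3 ^ k) (fun M => |Gq (3 ^ k) t k c (fun _ => True) M - Gq (3 ^ n) t k c (fun _ => True) M|) := by
    intro k hk
    have e : 3 ^ k * B = m * 3 ^ (k + j) := by rw [hBeq, pow_add]; ring
    rw [e]
    have h1 := tri_avg (j := j) (t := t) hm c (KS_mem hk).2
    have h2 := hlow k
    linarith
  refine le_trans (Finset.sum_le_sum hstep) ?_
  rw [Finset.sum_add_distrib, Finset.sum_add_distrib, Finset.sum_const, nsmul_eq_mul]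
  have h5 : ((KS t n).card : ℝ) * (m * (1 / 2) ^ n) ≤ 3 * m * ((n : ℝ) ^ 6 * (1 / 2) ^ n) := by
    calc ((KS t n).card : ℝ) * (m * (1 / 2) ^ n) ≤ (3 * (n : ℝ) ^ 6) * (m * (1 / 2) ^ n) := by gcongr
      _ = _ := by ring
  linarith

end Pool.Agent.Helper3.TD
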