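import Pool.Agent.Helper3.EQ.AvN

/-! The mixing theorem for general moduli. -/

namespace Pool.Agent.Helper3.TD

open Pool.Agent.Helper3.ND

open Classical in
theorem gdiff' (m N' N t k : ℕ) (hN : N = m * N') [NeZero N] [Fact (Nat.Coprime 2 N)] (c : ℤ) (P : ℕ → Prop) (E : ℝ)
    (hE : ∑ ξ : ZMod N, (if ¬ m ∣ ξ.val then ‖CwN N t k P ξ‖ ^ 2 else 0) ≤ E * (2 ^ t) ^ 2) :
    AvQ N (fun M => |Gq N t k c P M - Gq N' t k c P M|) ≤ Real.sqrt E := by
  subst hN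
  have h1 : NeZero m := ⟨fun h0 => NeZero.ne (m * N') (by rw [h0, zero_mul])⟩
  have h2 : NeZero N' := ⟨fun h0 => NeZero.ne (m * N') (by rw [h0, mul_zero])⟩
  exact gdiff m N' t k c P E hE

theorem band_leN (m j : ℕ) (hm : 0 < m) (hm2 : Nat.Coprime 2 m) : ∃ C : ℝ, 0 < C ∧ ∃ n0 : ℕ, 10 ^ 4 ≤ n0 ∧ 100 * j ≤ n0 ∧
    ∀ n, n0 ≤ n + 1 → ∀ t k : ℕ, n + 1 ≤ k + j → k ≤ t → TypK t k → ∀ c : ℤ,
    AvQ (m * 3 ^ (n + 1)) (fun M => |Gq (m * 3 ^ (n + 1)) t k c (fun _ => True) M - Gq (m * 3 ^ n) t k c (fun _ => True) M|) ≤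
      C / (((n + 1 : ℕ) : ℝ) ^ 2 * Real.sqrt t) + 2 * mass t k (fun r => ¬ GG (n + 1) (yy (t - uu (n + 1)) (uu (n + 1)) r)) := by
  classical
  obtain ⟨C, hC, n0, hn0, hjn0, H⟩ := beta_boundN m j
  have hmr : (1 : ℝ) ≤ m := by exact_mod_cast hm
  refine ⟨2 * m * C, by positivity, n0, hn0, hjn0, ?_⟩
  intro n' hm' t k hmk hkt hk c
  obtain ⟨n, hnn⟩ : ∃ n, n = n' + 1 := ⟨_, rfl⟩
  have hn3 : 10 ^ 3 ≤ n := by omega
  have hn23 : 2 * 10 ^ 3 ≤ n := by omega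
  have hjn : 100 * j ≤ n := by omega
  have hut := uu_le_tN (n := n) hn23 hjn (by omega) hkt hk
  have hnr : (10 ^ 3 : ℝ) ≤ n := by exact_mod_cast hn3
  have hnpos : (0 : ℝ) < n := by linarith
  have ht0 : (0 : ℝ) < t := by
    have := n_le_tN (n := n) hn23 hjn (by omega) hkt hk
    linarith
  have hsqt : 0 < Real.sqrt t := Real.sqrt_pos.mpr ht0
  obtain ⟨N, hN⟩ : ∃ N, N = m * 3 ^ n := ⟨_, rfl⟩
  have hN3 : N = 3 * (m * 3 ^ n') := by rw [hN, hnn, pow_succ]; ring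
  have hNpos : 0 < N := by rw [hN]; positivity
  have i1 : NeZero N := ⟨hNpos.ne'⟩
  have hcop : Nat.Coprime 2 N := by
    rw [hN]
    exact Nat.Coprime.mul_right hm2 (Nat.Coprime.pow_right n (by norm_num))
  have i2 : Fact (Nat.Coprime 2 N) := ⟨hcop⟩
  have hd := AvQ_diff (m := 3) (q := m * 3 ^ n') (by norm_num) (by positivity) (by rw [← hN3]; exact hcop) t k c
    (fun r => GG n (yy (t - uu n) (uu n) r))
  rw [← hN3] at hd
  have eN : m * 3 ^ (n' + 1) = N := by rw [hN, hnn]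
  rw [eN, ← hnn]
  refine le_trans hd ?_
  apply add_le_add _ le_rfl
  have hst : t - uu n + uu n = t := Nat.sub_add_cancel hut
  have hNr : ((N : ℕ) : ℝ) / 2 ^ uu n ≤ 2 * m * (n : ℝ) ^ 4 := by
    rw [div_le_iff₀ (by positivity), hN]
    have : ((3 ^ n : ℕ) : ℝ) ≤ ((n ^ 4 * (2 * 2 ^ uu n) : ℕ) : ℝ) := by exact_mod_cast (uu_gt n (by omega)).le
    push_cast at this ⊢
    nlinarith
  have hub := uu_bound n (by omega)
  have hu2 : (uu n : ℝ) + 1 ≤ 2 * n := by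
    have : (5 : ℝ) * uu n ≤ 8 * n := by exact_mod_cast hub
    linarith
  obtain ⟨β, hβ⟩ : ∃ β : ℝ, β = C / ((n : ℝ) ^ 5 * Real.sqrt t) := ⟨_, rfl⟩
  have hβ0 : 0 ≤ β := by rw [hβ]; positivity
  have hsq := CwN_sq N (fun ξ => ¬ 3 ∣ ξ.val) (t - uu n) (uu n) k (GG n) (fun y _ hGy => by
      have h1 := hGy.1
      have h2 : ((n : ℝ) ^ 4 * 2 ^ uu n) ≤ 3 ^ n := by exact_mod_cast uu_le n (by omega)
      have h3 : (cc (uu n) (y : ℤ) : ℝ) < 3 ^ n := lt_of_lt_of_le h1 h2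
      have h4 : cc (uu n) (y : ℤ) < 3 ^ n := by exact_mod_cast h3
      have h5 : (3 : ℤ) ^ n ≤ N := by
        rw [hN]
        push_cast
        have : (1 : ℤ) ≤ m := by exact_mod_cast hm
        nlinarith [show (0 : ℤ) < 3 ^ n by positivity]
      linarith) β hβ0 (fun ξ hξ y _ hGy hyk => by
      rw [hβ]
      refine H n (by omega) t k (by omega) hkt hk N hN (ξ * hn N ^ uu n) ?_ y hGy hyk
      rw [dvd_val_unit 3 (m * 3 ^ n') N hN3 ξ _ ((hn_unit N).pow _)]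
      exact hξ)
  rw [hst] at hsq
  have hg := gdiff' 3 (m * 3 ^ n') N t k hN3 c (fun r => GG n (yy (t - uu n) (uu n) r)) (((uu n : ℝ) + 1) * β ^ 2 * ((N : ℝ) / 2 ^ uu n)) (by
    refine le_trans (le_trans (le_of_eq (Finset.sum_congr rfl (fun ξ _ => ?_))) hsq) (le_of_eq ?_)
    · split_ifs <;> rfl
    have : (2 : ℝ) ^ t = 2 ^ (t - uu n) * 2 ^ uu n := by rw [← pow_add, hst]
    rw [this]
    field_simp)
  refine le_trans hg ?_
  rw [Real.sqrt_le_left (by positivity)]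
  calc ((uu n : ℝ) + 1) * β ^ 2 * ((N : ℝ) / 2 ^ uu n)
      ≤ (2 * n) * β ^ 2 * (2 * m * (n : ℝ) ^ 4) := by gcongr
    _ = (4 * m * C ^ 2) / ((n : ℝ) ^ 5 * Real.sqrt t ^ 2) := by rw [hβ]; field_simp; ring
    _ ≤ (4 * m ^ 2 * C ^ 2) / ((n : ℝ) ^ 4 * Real.sqrt t ^ 2) := by
        apply div_le_div₀ (by positivity) _ (by positivity)
        · apply mul_le_mul_of_nonneg_right _ (by positivity)
          exact pow_le_pow_right₀ (by linarith) (by norm_num)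
        · apply mul_le_mul_of_nonneg_right _ (by positivity)
          nlinarith
    _ = _ := by field_simp; ring

/-- **Mixing** for the moduli `m * 3 ^ n` -/
theorem mixingN (m j : ℕ) (hm : 0 < m) (hm2 : Nat.Coprime 2 m) : ∃ C : ℝ, 0 < C ∧ ∃ n0 : ℕ, 10 ^ 4 ≤ n0 ∧ ∀ t m1 : ℕ, n0 ≤ m1 → m1 ≤ t → ∀ c : ℤ,
    ∑ k ∈ KS t m1, AvQ (m * 3 ^ (k + j)) (fun M => |Gq (m * 3 ^ (k + j)) t k c (fun _ => True) M - Gq (m * 3 ^ m1) t k c (fun _ => True) M|) ≤
      C * (t : ℝ) ^ (1 / 20 : ℝ) / m1 := by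
  classical
  obtain ⟨C, hC, n0, hn0, hjn0, H⟩ := band_leN m j hm hm2
  obtain ⟨F, hFpos, hbad⟩ : ∃ F : ℝ, 0 < F ∧ ∀ n : ℕ, 10 ^ 3 ≤ n →
      (((Finset.range (2 ^ uu n)).filter (fun y : ℕ => ¬ GG n y)).card : ℝ) / 2 ^ uu n ≤ F / (n : ℝ) ^ 2 :=
    ⟨11 + 2 * (Nat.factorial 20 : ℝ), by positivity, fun n hn => bad_card n hn⟩
  refine ⟨3 * C + 2 * F, by positivity, n0, hn0, ?_⟩
  intro t m1 hm1 hmt c
  have hmpos : (0 : ℝ) < m1 := by have : 0 < m1 := by omega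
                                  exact_mod_cast this
  have ht1 : 1 ≤ t := by omega
  have ht' : (1 : ℝ) ≤ t := by exact_mod_cast ht1
  have ht0 : (0 : ℝ) < t := by linarith
  have h1 : ∀ k ∈ KS t m1, AvQ (m * 3 ^ (k + j)) (fun M => |Gq (m * 3 ^ (k + j)) t k c (fun _ => True) M - Gq (m * 3 ^ m1) t k c (fun _ => True) M|) ≤
      C / Real.sqrt t * (1 / m1) + 2 * ∑ n ∈ Finset.Ico m1 (t + j), (if n + 1 ≤ k + j then mass t k (fun r => ¬ GG (n + 1) (yy (t - uu (n + 1)) (uu (n + 1)) r)) else 0) := by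
    intro k hk
    unfold KS at hk
    rw [Finset.mem_filter, Finset.mem_range] at hk
    obtain ⟨hkt, hmk, htyp⟩ := hk
    refine le_trans (AvQ_tele hm t k c m1 (k + j) (by omega)) ?_
    have h2 : ∀ n ∈ Finset.Ico m1 (k + j), AvQ (m * 3 ^ (n + 1)) (fun M => |Gq (m * 3 ^ (n + 1)) t k c (fun _ => True) M - Gq (m * 3 ^ n) t k c (fun _ => True) M|) ≤
        C / Real.sqrt t * (1 / (((n + 1 : ℕ) : ℝ) ^ 2)) +
          2 * (if n + 1 ≤ k + j then mass t k (fun r => ¬ GG (n + 1) (yy (t - uu (n + 1)) (uu (n + 1)) r)) else 0) := by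
      intro n hn
      rw [Finset.mem_Ico] at hn
      have := H n (by omega) t k (by omega) (by omega) htyp c
      rw [if_pos (by omega)]
      refine le_trans this (le_of_eq ?_)
      congr 1
      field_simp
    refine le_trans (Finset.sum_le_sum h2) ?_
    rw [Finset.sum_add_distrib, ← Finset.mul_sum, ← Finset.mul_sum]
    apply add_le_add
    · apply mul_le_mul_of_nonneg_left _ (by positivity)
      exact sum_inv_sq m1 (k + j) (by omega)
    · apply mul_le_mul_of_nonneg_left _ (by norm_num)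
      apply Finset.sum_le_sum_of_subset_of_nonneg
      · intro n hn
        rw [Finset.mem_Ico] at hn ⊢
        omega
      · intro n _ _
        split_ifs
        · unfold mass; positivity
        · exact le_rfl
  refine le_trans (Finset.sum_le_sum h1) ?_
  rw [Finset.sum_add_distrib, Finset.sum_const, nsmul_eq_mul, ← Finset.mul_sum, Finset.sum_comm]
  have h3 : ∀ n ∈ Finset.Ico m1 (t + j), ∑ k ∈ KS t m1, (if n + 1 ≤ k + j then mass t k (fun r => ¬ GG (n + 1) (yy (t - uu (n + 1)) (uu (n + 1)) r)) else 0) ≤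
      F * (1 / (((n + 1 : ℕ) : ℝ) ^ 2)) := by
    intro n hn
    rw [Finset.mem_Ico] at hn
    rw [← Finset.sum_filter]
    by_cases hne : ((KS t m1).filter (fun k => n + 1 ≤ k + j)).Nonempty
    · obtain ⟨k, hk⟩ := hne
      unfold KS at hk
      rw [Finset.mem_filter, Finset.mem_filter, Finset.mem_range] at hk
      have hut := uu_le_tN (n := n + 1) (j := j) (by omega) (by omega) hk.2 (by omega) hk.1.2.2
      have h4 := mass_sum (t - uu (n + 1)) (uu (n + 1)) (fun y => ¬ GG (n + 1) y) ((KS t m1).filter (fun k => n + 1 ≤ k + j))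
      rw [Nat.sub_add_cancel hut] at h4
      have h6 := hbad (n + 1) (by omega)
      rw [mul_one_div]
      refine le_trans h4 (le_trans (le_of_eq ?_) h6)
      congr 2
      exact congrArg Finset.card (Finset.filter_congr_decidable _ _ _)
    · rw [Finset.not_nonempty_iff_eq_empty.mp hne, Finset.sum_empty]
      positivity
  have h5 : 2 * ∑ n ∈ Finset.Ico m1 (t + j), ∑ k ∈ KS t m1, (if n + 1 ≤ k + j then mass t k (fun r => ¬ GG (n + 1) (yy (t - uu (n + 1)) (uu (n + 1)) r)) else 0) ≤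
      2 * F * (1 / m1) := by
    rw [mul_assoc]
    apply mul_le_mul_of_nonneg_left _ (by norm_num)
    refine le_trans (Finset.sum_le_sum h3) ?_
    rw [← Finset.mul_sum]
    exact mul_le_mul_of_nonneg_left (sum_inv_sq m1 (t + j) (by omega)) hFpos.le
  have h6 : ((KS t m1).card : ℝ) * (C / Real.sqrt t * (1 / m1)) ≤ 3 * C * (t : ℝ) ^ (1 / 20 : ℝ) / m1 := by
    calc ((KS t m1).card : ℝ) * (C / Real.sqrt t * (1 / m1)) ≤ (3 * (t : ℝ) ^ (11 / 20 : ℝ)) * (C / Real.sqrt t * (1 / m1)) := by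
          apply mul_le_mul_of_nonneg_right (card_KS t m1 ht1) (by positivity)
      _ = 3 * C * ((t : ℝ) ^ (11 / 20 : ℝ) / Real.sqrt t) / m1 := by ring
      _ = _ := by
          rw [Real.sqrt_eq_rpow, ← Real.rpow_sub ht0]
          norm_num
  have h7 : 2 * F * (1 / m1) ≤ 2 * F * (t : ℝ) ^ (1 / 20 : ℝ) / m1 := by
    rw [mul_one_div]
    apply div_le_div_of_nonneg_right _ hmpos.le
    have : 1 ≤ (t : ℝ) ^ (1 / 20 : ℝ) := Real.one_le_rpow ht' (by norm_num)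
    nlinarith
  calc _ ≤ 3 * C * (t : ℝ) ^ (1 / 20 : ℝ) / m1 + 2 * F * (1 / m1) := add_le_add h6 h5
    _ ≤ 3 * C * (t : ℝ) ^ (1 / 20 : ℝ) / m1 + 2 * F * (t : ℝ) ^ (1 / 20 : ℝ) / m1 := by linarith
    _ = _ := by ring

end Pool.Agent.Helper3.TD
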